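import Mathlib

/-!
# Functions on a finite abelian group whose sums over subgroups of prime order vanish
-/

set_option autoImplicit false
set_option linter.unusedSectionVars false

namespace Pool.Agent.H504.CF

variable {G : Type} [CommGroup G] [Finite G]

/-- `G` has at most one subgroup of order `ℓ` -/
def OneSub (G : Type) [Group G] (l : ℕ) : Prop :=
  ∀ C C' : Subgroup G, Nat.card C = l → Nat.card C' = l → C = C'

lemma exists_fun (W : Subgroup G) (L : Finset ℕ) (hL : ∀ l ∈ L, l.Prime ∧ ¬ l ∣ Nat.card W ∧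
    (∃ g : G, orderOf g = l) ∧ OneSub G l) :
    ∃ y : G → ℤ, (∀ x ∈ W, y x = 1) ∧ (∀ x, ∀ w ∈ W, y (x * w) = y x) ∧
      (∀ x, x ^ (Nat.card W * ∏ l ∈ L, l) ≠ 1 → y x = 0) ∧
      ∀ l ∈ L, ∀ C : Subgroup G, Nat.card C = l → ∀ x, ∑ᶠ c : C, y (x * c) = 0 := by
  classical
  have := Fintype.ofFinite G
  induction L using Finset.induction_on with
  | empty =>
    refine ⟨fun x => if x ∈ W then 1 else 0, fun x hx => if_pos hx, fun x w hw => ?_,
      fun x hx => ?_, fun l hl => absurd hl (Finset.notMem_empty l)⟩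
    · simp only [W.mul_mem_cancel_right hw]
    · refine if_neg fun hxW => hx ?_
      rw [Finset.prod_empty, mul_one]
      have h := pow_card_eq_one' (x := (⟨x, hxW⟩ : W))
      exact congrArg Subtype.val h
  | insert l L hl ih =>
    obtain ⟨y, h1, h2, h3, h4⟩ := ih fun l' hl' => hL l' (Finset.mem_insert_of_mem hl')
    obtain ⟨hlp, hlW, ⟨g, hg⟩, hone⟩ := hL l (Finset.mem_insert_self l L)
    have hcop : ¬ l ∣ Nat.card W * ∏ l ∈ L, l := by
      rw [hlp.dvd_mul, not_or]
      refine ⟨hlW, fun h => ?_⟩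
      obtain ⟨l', hl', hd⟩ := (Nat.Prime.prime hlp).exists_mem_finset_dvd h
      have := (Nat.prime_dvd_prime_iff_eq hlp (hL l' (Finset.mem_insert_of_mem hl')).1).1 hd
      exact hl (this ▸ hl')
    have hg1 : g ^ (Nat.card W * ∏ l ∈ L, l) ≠ 1 := fun h =>
      hcop (hg ▸ orderOf_dvd_of_pow_eq_one h)
    refine ⟨fun x => y x - y (x * g⁻¹), fun x hx => ?_, fun x w hw => ?_, fun x hx => ?_,
      fun l' hl' C hC x => ?_⟩
    · beta_reduce
      rw [h1 x hx, h3, sub_zero]
      rw [mul_pow, inv_pow]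
      have h := pow_card_eq_one' (x := (⟨x, hx⟩ : W))
      have h' : x ^ Nat.card W = 1 := congrArg Subtype.val h
      rw [pow_mul x, h', one_pow, one_mul]
      exact fun h => hg1 (inv_eq_one.1 h)
    · beta_reduce
      rw [h2 x w hw, mul_right_comm, h2 _ w hw]
    · rw [Finset.prod_insert hl] at hx
      have hx1 : x ^ (Nat.card W * ∏ l ∈ L, l) ≠ 1 := by
        intro h
        apply hx
        rw [mul_left_comm _ l, mul_comm l, pow_mul, h, one_pow]
      have hx2 : (x * g⁻¹) ^ (Nat.card W * ∏ l ∈ L, l) ≠ 1 := by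
        intro h
        apply hx
        have h5 : (x * g⁻¹) ^ (Nat.card W * (l * ∏ l ∈ L, l)) = 1 := by
          rw [mul_left_comm _ l, mul_comm l, pow_mul, h, one_pow]
        rw [mul_pow, inv_pow] at h5
        have h6 : g ^ (Nat.card W * (l * ∏ l ∈ L, l)) = 1 := by
          rw [mul_left_comm _ l, pow_mul, ← hg, pow_orderOf_eq_one, one_pow]
        rwa [h6, inv_one, mul_one] at h5
      beta_reduce
      rw [h3 x hx1, h3 _ hx2, sub_zero]
    · rw [finsum_eq_sum_of_fintype, Finset.sum_sub_distrib, sub_eq_zero]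
      rcases Finset.mem_insert.1 hl' with rfl | hl'
      · have hgC : g ∈ C := by
          rw [hone C (Subgroup.zpowers g) hC (by rw [Nat.card_zpowers, hg])]
          exact Subgroup.mem_zpowers g
        refine Fintype.sum_equiv (Equiv.mulRight (⟨g, hgC⟩ : C)) _ _ fun c => ?_
        simp [mul_assoc]
      · have h5 := h4 l' hl' C hC x
        have h6 := h4 l' hl' C hC (x * g⁻¹)
        rw [finsum_eq_sum_of_fintype] at h5 h6
        rw [h5, ← h6]
        exact Finset.sum_congr rfl fun c _ => by rw [mul_right_comm]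

/-- a character of order `p` -/
lemma exists_char {p : ℕ} (hp : p.Prime) (h : p ∣ Nat.card G) :
    ∃ χ : G →* ℂˣ, χ ≠ 1 ∧ χ ^ p = 1 := by
  have : Fact p.Prime := ⟨hp⟩
  have : HasEnoughRootsOfUnity ℂ (Monoid.exponent G) := by
    have : NeZero (Monoid.exponent G) := ⟨Monoid.exponent_ne_zero_of_finite⟩
    infer_instance
  have h1 : Nat.card (G →* ℂˣ) = Nat.card G :=
    CommGroup.card_monoidHom_of_hasEnoughRootsOfUnity G ℂ
  have : Finite (G →* ℂˣ) := Nat.finite_of_card_ne_zero (by rw [h1]; exact Nat.card_pos.ne')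
  obtain ⟨χ, hχ⟩ := exists_prime_orderOf_dvd_card' (G := G →* ℂˣ) p (by rwa [h1])
  refine ⟨χ, ?_, ?_⟩
  · rintro rfl
    rw [orderOf_one] at hχ
    exact hp.one_lt.ne hχ
  · rw [← hχ, pow_orderOf_eq_one]

lemma exists_noncyclic {l : ℕ} (hl : l.Prime) (h : ¬ OneSub G l) :
    ∃ H : Subgroup G, Nat.card H = l * l ∧ ¬ IsCyclic H := by
  rw [OneSub] at h
  push Not at h
  obtain ⟨C, C', hC, hC', hne⟩ := h
  have hdisj : Disjoint C C' := by
    rw [disjoint_iff]
    by_contra hb
    have h1 : Nat.card (C ⊓ C' : Subgroup G) ∣ l := hC ▸ Subgroup.card_dvd_of_le inf_le_left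
    rcases (Nat.dvd_prime hl).1 h1 with h2 | h2
    · exact hb (Subgroup.card_eq_one.1 h2)
    · have h3 : C ⊓ C' = C := Subgroup.eq_of_le_of_card_ge inf_le_left (by rw [hC, h2])
      have h4 : C ⊓ C' = C' := Subgroup.eq_of_le_of_card_ge inf_le_right (by rw [hC', h2])
      exact hne (h3.symm.trans h4)
  have hinj := Subgroup.mul_injective_of_disjoint hdisj
  let φ : C × C' →* G := C.subtype.coprod C'.subtype
  have hφ : Function.Injective φ := hinj
  refine ⟨φ.range, ?_, fun hcyc => ?_⟩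
  · rw [← Nat.card_congr (MonoidHom.ofInjective hφ).toEquiv, Nat.card_prod, hC, hC']
  · obtain ⟨g, hg⟩ := hcyc.exists_generator
    have h1 : orderOf g = l * l := by
      rw [orderOf_eq_card_of_forall_mem_zpowers hg,
        ← Nat.card_congr (MonoidHom.ofInjective hφ).toEquiv, Nat.card_prod, hC, hC']
    obtain ⟨⟨c, c'⟩, hcc⟩ := g.2
    have h2 : g ^ l = 1 := by
      apply Subtype.ext
      change (g : G) ^ l = 1
      rw [← hcc, ← map_pow, Prod.pow_mk]
      have h3 : c ^ l = 1 := hC ▸ pow_card_eq_one'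
      have h4 : c' ^ l = 1 := hC' ▸ pow_card_eq_one'
      rw [h3, h4]
      exact map_one φ
    have h3 := orderOf_dvd_of_pow_eq_one h2
    rw [h1] at h3
    have h4 := Nat.le_of_dvd hl.pos h3
    nlinarith [hl.two_le]

lemma not_oneSub {l : ℕ} (hl : l.Prime) {H : Subgroup G} (hH : Nat.card H = l * l)
    (hcyc : ¬ IsCyclic H) : ¬ OneSub G l := by
  intro hone
  have : Fact l.Prime := ⟨hl⟩
  obtain ⟨x, hx⟩ := exists_prime_orderOf_dvd_card' (G := H) l (by rw [hH]; exact dvd_mul_left l l)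
  -- every element of `H` lies in the subgroup generated by `x`
  have h1 : ∀ z : H, z ∈ Subgroup.zpowers x := by
    intro z
    by_cases hz : z = 1
    · rw [hz]; exact Subgroup.one_mem _
    have hd : orderOf z ∣ l * l := hH ▸ orderOf_dvd_natCard z
    have h2 : orderOf z = l := by
      rw [← pow_two] at hd
      obtain ⟨i, hi, hi'⟩ := (Nat.dvd_prime_pow hl).1 hd
      interval_cases i
      · exact absurd (orderOf_eq_one_iff.1 (by simpa using hi')) hz
      · simpa using hi'
      · refine absurd (isCyclic_of_orderOf_eq_card z ?_) hcyc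
        rw [hH, hi', pow_two]
    have h3 := hone (Subgroup.zpowers (z : G)) (Subgroup.zpowers (x : G))
      (by rw [Nat.card_zpowers, Subgroup.orderOf_coe, h2])
      (by rw [Nat.card_zpowers, Subgroup.orderOf_coe, hx])
    have h4 : (z : G) ∈ Subgroup.zpowers (x : G) := h3 ▸ Subgroup.mem_zpowers _
    obtain ⟨i, hi⟩ := h4
    exact ⟨i, Subtype.ext hi⟩
  exact hcyc ⟨x, h1⟩

end Pool.Agent.H504.CF
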