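import Pool.Agent.H504.CF.Ab

/-!
# Functions on a finite abelian group whose products over cosets of subgroups of prime order are
rational
-/

set_option autoImplicit false
set_option linter.unusedSectionVars false

namespace Pool.Agent.H504.CF

variable {G : Type} [CommGroup G] [Finite G]

/-- the products of `f` over the cosets of each subgroup of prime order are a rational constant -/
def CosetRat (f : G → ℂ) : Prop := ∀ l : ℕ, l.Prime → ∀ C : Subgroup G, Nat.card C = l →
  ∃ q : ℚ, ∀ x, ∏ᶠ c : C, f (x * c) = q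

/-- all sums of `y` over cosets of nontrivial subgroups of prime order vanish -/
theorem exists_int_fun (h1 : Nat.card G ≠ 1) (hone : ∀ l : ℕ, l.Prime → OneSub G l) :
    ∃ y : G → ℤ, y 1 = 1 ∧ (∃ g, y g ≠ 1) ∧
      ∀ l : ℕ, l.Prime → ∀ C : Subgroup G, Nat.card C = l → ∀ x, ∑ᶠ c : C, y (x * c) = 0 := by
  classical
  have := Fintype.ofFinite G
  obtain ⟨y, hy1, -, -, hy4⟩ := exists_fun (⊥ : Subgroup G) (Nat.card G).primeFactors
    (fun l hl => by
      have hlp := Nat.prime_of_mem_primeFactors hl
      have : Fact l.Prime := ⟨hlp⟩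
      refine ⟨hlp, ?_, exists_prime_orderOf_dvd_card' l (Nat.dvd_of_mem_primeFactors hl),
        hone l hlp⟩
      rw [Subgroup.card_bot]
      exact hlp.one_lt.ne' ∘ Nat.dvd_one.1)
  have h4 : ∀ l : ℕ, l.Prime → ∀ C : Subgroup G, Nat.card C = l →
      ∀ x, ∑ᶠ c : C, y (x * c) = 0 := by
    intro l hl C hC
    refine hy4 l ?_ C hC
    rw [Nat.mem_primeFactors]
    exact ⟨hl, hC ▸ Subgroup.card_subgroup_dvd_card C, Nat.card_pos.ne'⟩
  refine ⟨y, hy1 1 (Subgroup.mem_bot.2 rfl), ?_, h4⟩
  by_contra hall
  push Not at hall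
  obtain ⟨l, hl, hlG⟩ := Nat.exists_prime_and_dvd h1
  have : Fact l.Prime := ⟨hl⟩
  obtain ⟨x, hx⟩ := exists_prime_orderOf_dvd_card' (G := G) l hlG
  have h5 := h4 l hl (Subgroup.zpowers x) (by rw [Nat.card_zpowers, hx]) 1
  rw [finsum_eq_sum_of_fintype] at h5
  simp only [hall, Finset.sum_const, mul_one, Finset.card_univ, nsmul_eq_mul] at h5
  have h6 : Fintype.card (Subgroup.zpowers x) = 0 := by exact_mod_cast h5
  exact Fintype.card_ne_zero h6

/-- the `p`-primary part -/
noncomputable def prim (G : Type) [CommGroup G] (p : ℕ) : Subgroup G :=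
  (powMonoidHom (p ^ (Nat.card G).factorization p) : G →* G).ker

lemma mem_prim {p : ℕ} {x : G} :
    x ∈ prim G p ↔ x ^ (p ^ (Nat.card G).factorization p) = 1 := Iff.rfl

lemma prim_of_card {p : ℕ} (hp : p.Prime) {C : Subgroup G} (hC : Nat.card C = p) {c : G}
    (hc : c ∈ C) : c ∈ prim G p := by
  rw [mem_prim]
  have h1 : c ^ p = 1 := by
    have h := pow_card_eq_one' (x := (⟨c, hc⟩ : C))
    rw [hC] at h
    exact congrArg Subtype.val h
  have h2 : p ∣ Nat.card G := hC ▸ Subgroup.card_subgroup_dvd_card C
  have h3 : 1 ≤ (Nat.card G).factorization p :=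
    (hp.factorization_pos_of_dvd Nat.card_pos.ne' h2)
  obtain ⟨t, ht⟩ := Nat.exists_eq_add_of_le h3
  rw [ht, pow_add, pow_one, pow_mul, h1, one_pow]

lemma not_dvd_card_prim {p l : ℕ} (hp : p.Prime) (hl : l.Prime) (hlp : l ≠ p) :
    ¬ l ∣ Nat.card (prim G p) := by
  intro h
  have : Fact l.Prime := ⟨hl⟩
  obtain ⟨x, hx⟩ := exists_prime_orderOf_dvd_card' (G := prim G p) l h
  have h1 : x ^ (p ^ (Nat.card G).factorization p) = 1 := Subtype.ext x.2
  have h2 := orderOf_dvd_of_pow_eq_one h1
  rw [hx] at h2
  exact hlp ((Nat.prime_dvd_prime_iff_eq hl hp).1 (hl.dvd_of_dvd_pow h2))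

lemma finprod_zpow {C : Subgroup G} (z : ℂ) (hz : z ≠ 0) (y : C → ℤ) :
    ∏ᶠ c : C, z ^ y c = z ^ (∑ᶠ c : C, y c) := by
  have := Fintype.ofFinite C
  rw [finprod_eq_prod_of_fintype, finsum_eq_sum_of_fintype]
  classical
  have : ∀ s : Finset C, ∏ c ∈ s, z ^ y c = z ^ (∑ c ∈ s, y c) := by
    intro s
    induction s using Finset.induction_on with
    | empty => simp
    | insert a s ha ih => rw [Finset.prod_insert ha, Finset.sum_insert ha, ih, zpow_add₀ hz]
  exact this _

theorem exists_bad_fun (h1 : Nat.card G ≠ 1) {p : ℕ} (hp : p.Prime)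
    (hone : ∀ l : ℕ, l.Prime → l ≠ p → OneSub G l) (hp2 : p = 2 ∨ p ∣ Nat.card G) :
    ∃ f : G → ℂ, (∀ g, f g ≠ 0) ∧ CosetRat f ∧ ∃ q : ℚ, f 1 = q ∧ ∃ g, f g ≠ q := by
  classical
  have := Fintype.ofFinite G
  set L := (Nat.card G).primeFactors.erase p with hL
  obtain ⟨y, hy1, hy2, -, hy4⟩ := exists_fun (prim G p) L
    (fun l hl => by
      rw [hL, Finset.mem_erase] at hl
      have hlp := Nat.prime_of_mem_primeFactors hl.2
      have : Fact l.Prime := ⟨hlp⟩
      exact ⟨hlp, not_dvd_card_prim hp hlp hl.1,
        exists_prime_orderOf_dvd_card' l (Nat.dvd_of_mem_primeFactors hl.2), hone l hlp hl.1⟩)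
  have h4 : ∀ l : ℕ, l.Prime → l ≠ p → ∀ C : Subgroup G, Nat.card C = l →
      ∀ x, ∑ᶠ c : C, y (x * c) = 0 := by
    intro l hl hlp C hC
    refine hy4 l ?_ C hC
    rw [hL, Finset.mem_erase, Nat.mem_primeFactors]
    exact ⟨hlp, hl, hC ▸ Subgroup.card_subgroup_dvd_card C, Nat.card_pos.ne'⟩
  have hy1' : y 1 = 1 := hy1 1 (Subgroup.one_mem _)
  by_cases hcase : p = 2 ∧ L.Nonempty
  · -- `f = (-1) ^ y`
    obtain ⟨rfl, ⟨l, hl⟩⟩ := hcase
    refine ⟨fun g => (-1) ^ y g, fun g => zpow_ne_zero _ (by norm_num), ?_, -1, ?_, ?_⟩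
    · intro l hl C hC
      refine ⟨1, fun x => ?_⟩
      rw [finprod_zpow _ (by norm_num)]
      by_cases hl2 : l = 2
      · subst hl2
        have h5 : ∑ᶠ c : C, y (x * c) = 2 * y x := by
          rw [finsum_eq_sum_of_fintype]
          rw [Finset.sum_congr rfl (g := fun _ : C => y x)
            (fun (c : C) _ => hy2 x c (prim_of_card hp hC c.2))]
          rw [Finset.sum_const, Finset.card_univ, ← Nat.card_eq_fintype_card, hC]
          simp
        rw [h5, zpow_mul]
        norm_num
      · rw [h4 l hl hl2 C hC x, zpow_zero]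
        norm_num
    · beta_reduce
      rw [hy1']
      norm_num
    · by_contra hall
      push Not at hall
      have hodd : ∀ g, Odd (y g) := by
        intro g
        have h5 := hall g
        rcases Int.even_or_odd (y g) with h6 | h6
        · rw [h6.neg_one_zpow] at h5
          norm_num at h5
        · exact h6
      rw [hL, Finset.mem_erase] at hl
      have hlp := Nat.prime_of_mem_primeFactors hl.2
      have : Fact l.Prime := ⟨hlp⟩
      obtain ⟨x, hx⟩ := exists_prime_orderOf_dvd_card' (G := G) l
        (Nat.dvd_of_mem_primeFactors hl.2)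
      have hC : Nat.card (Subgroup.zpowers x) = l := by rw [Nat.card_zpowers, hx]
      have h5 := h4 l hlp hl.1 (Subgroup.zpowers x) hC 1
      rw [finsum_eq_sum_of_fintype] at h5
      have hgen : ∀ s : Finset (Subgroup.zpowers x),
          (∑ c ∈ s, y (1 * c)) % 2 = (s.card : ℤ) % 2 := by
        intro s
        induction s using Finset.induction_on with
        | empty => simp
        | insert a s ha ih =>
          rw [Finset.sum_insert ha, Finset.card_insert_of_notMem ha]
          have := Int.odd_iff.1 (hodd (1 * a))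
          push_cast
          omega
      have h6 : Odd (∑ c : Subgroup.zpowers x, y (1 * c)) := by
        rw [Int.odd_iff, hgen, Finset.card_univ, ← Nat.card_eq_fintype_card, hC]
        have := Nat.odd_iff.1 (hlp.odd_of_ne_two hl.1)
        omega
      rw [h5] at h6
      exact absurd h6 (by decide)
  · -- a character of order `p`
    have hpG : p ∣ Nat.card G := by
      rcases hp2 with rfl | h
      · have hLe : L = ∅ := Finset.not_nonempty_iff_eq_empty.1 fun h => hcase ⟨rfl, h⟩
        obtain ⟨l, hl, hlG⟩ := Nat.exists_prime_and_dvd h1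
        have h5 : l = 2 := by
          by_contra hne
          have : l ∈ L := by
            rw [hL, Finset.mem_erase, Nat.mem_primeFactors]
            exact ⟨hne, hl, hlG, Nat.card_pos.ne'⟩
          rw [hLe] at this
          exact absurd this (Finset.notMem_empty l)
        rwa [← h5]
      · exact h
    obtain ⟨χ, hχ1, hχp⟩ := exists_char hp hpG
    have hχp' : ∀ g, (χ g : ℂ) ^ p = 1 := by
      intro g
      have h5 := DFunLike.congr_fun hχp g
      have h6 : ((χ g) ^ p : ℂˣ) = 1 := h5
      rw [← Units.val_pow_eq_pow_val, h6, Units.val_one]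
    refine ⟨fun g => (χ g : ℂ) ^ y g, fun g => zpow_ne_zero _ (Units.ne_zero _), ?_, 1, ?_, ?_⟩
    · intro l hl C hC
      by_cases hlp : l = p
      · subst hlp
        have h5 : ∀ x, ∏ᶠ c : C, ((χ (x * c) : ℂˣ) : ℂ) ^ y (x * c) =
            (∏ c : C, ((χ c : ℂˣ) : ℂ)) ^ y x := by
          intro x
          rw [finprod_eq_prod_of_fintype, ← Finset.prod_zpow]
          rw [Finset.prod_congr rfl (g := fun c : C => ((χ x : ℂˣ) : ℂ) ^ y x *
            ((χ c : ℂˣ) : ℂ) ^ y x) (fun c _ => ?_)]
          · rw [Finset.prod_mul_distrib, Finset.prod_const, Finset.card_univ,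
              ← Nat.card_eq_fintype_card, hC, ← zpow_natCast, ← zpow_mul, mul_comm (y x), zpow_mul,
              zpow_natCast, hχp', one_zpow, one_mul]
          · rw [hy2 x c (prim_of_card hp hC c.2), map_mul, Units.val_mul, mul_zpow]
        set z : ℂ := ∏ c : C, ((χ c : ℂˣ) : ℂ) with hz
        have hz2 : z * z = 1 := by
          have h6 : z = ∏ c : C, ((χ c : ℂˣ) : ℂ)⁻¹ := by
            rw [hz, ← Equiv.prod_comp (Equiv.inv C)]
            refine Finset.prod_congr rfl fun c _ => ?_
            simp
          nth_rewrite 2 [h6]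
          rw [hz, ← Finset.prod_mul_distrib]
          exact Finset.prod_eq_one fun c _ => mul_inv_cancel₀ (Units.ne_zero _)
        have hzl : z ^ l = 1 := by
          rw [hz, ← Finset.prod_pow]
          exact Finset.prod_eq_one fun c _ => hχp' c
        rcases mul_self_eq_one_iff.1 hz2 with h6 | h6
        · refine ⟨1, fun x => ?_⟩
          rw [h5, h6, one_zpow]
          norm_num
        · have hl2 : l = 2 := by
            by_contra hne
            rw [h6, (hp.odd_of_ne_two hne).neg_one_pow] at hzl
            norm_num at hzl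
          subst hl2
          have hLe : L = ∅ := Finset.not_nonempty_iff_eq_empty.1 fun h => hcase ⟨rfl, h⟩
          have h7 : Nat.card G = 2 ^ (Nat.card G).primeFactorsList.length := by
            refine Nat.eq_prime_pow_of_unique_prime_dvd Nat.card_pos.ne' fun {d} hd hdG => ?_
            by_contra hne
            have : d ∈ L := by
              rw [hL, Finset.mem_erase, Nat.mem_primeFactors]
              exact ⟨hne, hd, hdG, Nat.card_pos.ne'⟩
            rw [hLe] at this
            exact absurd this (Finset.notMem_empty d)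
          have h8 : 2 ^ (Nat.card G).factorization 2 = Nat.card G := by
            have h9 : (Nat.card G).factorization 2 = (Nat.card G).primeFactorsList.length := by
              conv_lhs => rw [h7]
              rw [hp.factorization_pow]
              simp
            rw [h9]
            exact h7.symm
          refine ⟨-1, fun x => ?_⟩
          have h10 : y x = 1 := by
            refine hy1 x ?_
            rw [mem_prim, h8]
            exact pow_card_eq_one'
          rw [h5, h6, h10, zpow_one]
          norm_num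
      · refine ⟨1, fun x => ?_⟩
        have hc1 : ∀ c : C, ((χ c : ℂˣ) : ℂ) = 1 := by
          intro c
          have h5 : ((χ c : ℂˣ) : ℂ) ^ l = 1 := by
            have h6 : (c : C) ^ l = 1 := hC ▸ pow_card_eq_one'
            have h7 : (c : G) ^ l = 1 := congrArg Subtype.val h6
            rw [← Units.val_pow_eq_pow_val, ← map_pow, h7, map_one, Units.val_one]
          have h8 := pow_gcd_eq_one.2 ⟨h5, hχp' c⟩
          rwa [(Nat.coprime_primes hl hp).2 hlp, pow_one] at h8
        have h5 : ∀ c : C, ((χ (x * c) : ℂˣ) : ℂ) ^ y (x * c) =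
            ((χ x : ℂˣ) : ℂ) ^ y (x * c) := by
          intro c
          rw [map_mul, Units.val_mul, hc1, mul_one]
        beta_reduce
        simp_rw [h5]
        rw [finprod_zpow (C := C) _ (Units.ne_zero _) (fun c => y (x * c)), h4 l hl hlp C hC x,
          zpow_zero]
        norm_num
    · beta_reduce
      rw [map_one, Units.val_one, one_zpow]
      norm_num
    · obtain ⟨x0, hx0⟩ : ∃ x0, χ x0 ≠ 1 := by
        by_contra hall
        push Not at hall
        exact hχ1 (MonoidHom.ext hall)
      refine ⟨x0 ^ (Nat.card G / p ^ (Nat.card G).factorization p), ?_⟩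
      have hmem : x0 ^ (Nat.card G / p ^ (Nat.card G).factorization p) ∈ prim G p := by
        rw [mem_prim, ← pow_mul, Nat.div_mul_cancel (Nat.ordProj_dvd _ _)]
        exact pow_card_eq_one'
      beta_reduce
      rw [hy1 _ hmem, zpow_one, map_pow]
      intro h5
      rw [Units.val_pow_eq_pow_val, Rat.cast_one] at h5
      have hcop : (Nat.card G / p ^ (Nat.card G).factorization p).Coprime p :=
        ((Nat.Prime.coprime_iff_not_dvd hp).2 (Nat.not_dvd_ordCompl hp Nat.card_pos.ne')).symm
      have h8 := pow_gcd_eq_one.2 ⟨h5, hχp' x0⟩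
      rw [hcop, pow_one] at h8
      exact hx0 (Units.ext h8)

end Pool.Agent.H504.CF
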