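import Mathlib

/-!
# Motives with coefficients in a number field `E`, given by their realisations, restriction of
coefficients to a subfield, Deligne's periods and Deligne's statement at an integer
-/

set_option autoImplicit false

namespace Pool.Agent.H504.CF

open TensorProduct Polynomial

section generic

variable {E V D : Type} [Field E] [AddCommGroup V] [Module E V] [Module ℚ V]
  [AddCommGroup D] [Module E D] [Module ℚ D]

/-- the action of `e ∈ E` on `V ⊗ ℂ`, for an `E`-vector space `V` -/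
noncomputable def act (V : Type) [AddCommGroup V] [Module E V] [Module ℚ V] (e : E) :
    (ℂ ⊗[ℚ] V) →ₗ[ℂ] (ℂ ⊗[ℚ] V) :=
  (AddMonoidHom.toRatLinearMap (DistribSMul.toAddMonoidHom V e)).baseChange ℂ

/-- the `ℂ`-linear form on `V ⊗ ℂ` given by an additive map `V → ℂ` -/
noncomputable def ext {V : Type} [AddCommGroup V] [Module ℚ V] (f : V →+ ℂ) :
    (ℂ ⊗[ℚ] V) →ₗ[ℂ] ℂ :=
  LinearMap.liftBaseChange ℂ f.toRatLinearMap

/-- `V ⊗ ℂ` is the direct sum of the `H p`, which are stable under `E` -/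
def IsHodge (E : Type) [Field E] [Module E V] (H : ℤ → Submodule ℂ (ℂ ⊗[ℚ] V)) : Prop :=
  DirectSum.IsInternal H ∧ ∀ p (e : E), ∀ x ∈ H p, act V e x ∈ H p

/-- `F` is an involution and maps `H p` onto `H (w - p)` -/
def IsSwap (w : ℤ) (F : V →ₗ[E] V) (H : ℤ → Submodule ℂ (ℂ ⊗[ℚ] V)) : Prop :=
  (∀ x, F (F x) = x) ∧
    ∀ p, (H p).map (F.toAddMonoidHom.toRatLinearMap.baseChange ℂ) = H (w - p)

/-- `I` is `E`-linear -/
def IsLin (E : Type) [Field E] [Module E V] [Module E D]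
    (I : (ℂ ⊗[ℚ] V) ≃ₗ[ℂ] (ℂ ⊗[ℚ] D)) : Prop :=
  ∀ (e : E) x, I (act V e x) = act D e (I x)

/-- `I` maps `⊕_{p ≥ i} H p` onto `fil i ⊗ ℂ` -/
def IsComp (H : ℤ → Submodule ℂ (ℂ ⊗[ℚ] V)) (fil : ℤ → Submodule E D)
    (I : (ℂ ⊗[ℚ] V) ≃ₗ[ℂ] (ℂ ⊗[ℚ] D)) : Prop :=
  ∀ i, (⨆ p, ⨆ (_ : i ≤ p), H p).map I.toLinearMap =
    Submodule.span ℂ ((fun x : D => (1 : ℂ) ⊗ₜ[ℚ] x) '' (fil i : Set D))

/-- The entry of the matrix of `S ⊗ ℂ → V ⊗ ℂ → D ⊗ ℂ → (D / T) ⊗ ℂ`, where the middle arrow is `I`, at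
`v ∈ S` and at a coordinate `f : D / T → E`, in its component at `σ : E → ℂ`. -/
noncomputable def entry (I : (ℂ ⊗[ℚ] V) ≃ₗ[ℂ] (ℂ ⊗[ℚ] D)) (T : Submodule E D) (σ : E →+* ℂ)
    (f : (D ⧸ T) →ₗ[E] E) (v : V) : ℂ :=
  ext (σ.toAddMonoidHom.comp (f.comp T.mkQ).toAddMonoidHom) (I (1 ⊗ₜ[ℚ] v))

/-- `c = (c_σ)_σ`, an element of `E ⊗ ℂ = ∏_σ ℂ`, is the determinant of
`S ⊗ ℂ → V ⊗ ℂ → D ⊗ ℂ → (D / T) ⊗ ℂ`, where the middle arrow is `I`, in `E`-bases of `S` and of
`D / T`. -/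
def IsDet (I : (ℂ ⊗[ℚ] V) ≃ₗ[ℂ] (ℂ ⊗[ℚ] D)) (S : Submodule E V) (T : Submodule E D)
    (c : (E →+* ℂ) → ℂ) : Prop :=
  ∃ (ι : Type) (_ : Fintype ι) (_ : DecidableEq ι) (v : Module.Basis ι E S)
    (u : Module.Basis ι E (D ⧸ T)),
    ∀ σ, c σ = (Matrix.of fun i j => entry I T σ (u.coord i) (v j)).det

/-- the vectors `x` with `F x = s x`, as a vector space over a subfield `K` -/
def eigen (K : Type) [Field K] [Algebra K E] [Module K V] [IsScalarTower K E V] (F : V →ₗ[E] V)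
    (s : ℤ) : Submodule K V where
  carrier := {x | F x = s • x}
  add_mem' := fun {x y} hx hy => by
    change F (x + y) = s • (x + y)
    rw [map_add, smul_add]
    exact congrArg₂ _ hx hy
  zero_mem' := by simp
  smul_mem' := fun c x hx => by
    change F (c • x) = s • (c • x)
    rw [← algebraMap_smul E c x, map_smul, smul_comm]
    exact congrArg _ hx

end generic

/-- The realisations of a pure motive `M` over `ℚ` with coefficients in `E`, without the axioms.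
Bases of `M_B` and `M_DR` over `E` are fixed, so that both are `E ^ N`. -/
structure Data (E : Type) [Field E] [NumberField E] where
  /-- the rank -/
  N : ℕ
  /-- the weight -/
  w : ℤ
  /-- `F_∞` -/
  F : (Fin N → E) →ₗ[E] (Fin N → E)
  /-- the Hodge decomposition, `H p = M^{p, w - p}` -/
  H : ℤ → Submodule ℂ (ℂ ⊗[ℚ] (Fin N → E))
  /-- the Hodge filtration, `fil i = F^i M` -/
  fil : ℤ → Submodule E (Fin N → E)
  /-- the comparison isomorphism `I_∞` -/
  I : (ℂ ⊗[ℚ] (Fin N → E)) ≃ₗ[ℂ] (ℂ ⊗[ℚ] (Fin N → E))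
  /-- the polynomials `P p = det (1 - Frob_p X | M_λ^{I_p})` of the local factors -/
  P : Nat.Primes → E[X]

/-- The realisations of a pure motive `M` over `ℚ` with coefficients in `E`: `F_∞` is an involution
that swaps `M^{p, q}` and `M^{q, p}`; `I_∞` is `E ⊗ ℂ`-linear and maps `⊕_{p ≥ i} M^{p, w - p}` onto
`F^i M ⊗ ℂ`. -/
structure Motive (E : Type) [Field E] [NumberField E] extends Data E where
  isHodge : IsHodge E H
  isSwap : IsSwap w F H
  isLin : IsLin E I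
  isComp : IsComp H fil I

section above

variable {E : Type} [Field E] [NumberField E] (K : Type) [Field K] [Algebra K E]

/-- the embeddings of `E` above `σ : K → ℂ` -/
abbrev Above (σ : K →+* ℂ) : Type := {τ : E →+* ℂ // τ.comp (algebraMap K E) = σ}

noncomputable instance (σ : K →+* ℂ) : Fintype (Above (E := E) K σ) := Fintype.ofFinite _

noncomputable instance (σ : K →+* ℂ) : DecidableEq (Above (E := E) K σ) := Classical.decEq _

end above

namespace Motive

variable {E : Type} [Field E] [NumberField E] (M : Motive E)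

section res

variable (K : Type) [Field K] [Algebra K E]

/-- the eigenspace `M^+` (`s = 1`) or `M^-` (`s = -1`) of `F_∞`, as a `K`-vector space -/
def eig (s : ℤ) : Submodule K (Fin M.N → E) := eigen K M.F s

/-- the step `F^± = F^{[(w + 1) / 2]}` of the Hodge filtration, as a `K`-vector space -/
def filp : Submodule K (Fin M.N → E) := (M.fil ((M.w + 1) / 2)).restrictScalars K

/-- `c = (c_σ)_σ`, an element of `K ⊗ ℂ = ∏_σ ℂ`, is a Deligne period `c^±` of the restriction of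
coefficients `Res_{E/K} M`: the determinant, in bases over `K` of `M^±` and of `M_DR / F^±`, of
`I_∞^± : M^± ⊗ ℂ → M_B ⊗ ℂ → M_DR ⊗ ℂ → (M_DR / F^±) ⊗ ℂ`. For `K = E` this is a period of `M`. -/
def IsPeriod (s : ℤ) (c : (K →+* ℂ) → ℂ) : Prop := IsDet M.I (M.eig K s) (M.filp K) c

/-- `v` is the value at `m` of the `L`-function `L(s, σ, Res_{E/K} M)`, the product over the primes of
`σ(N_{E/K} P_p)(p^{-s})^{-1} = ∏_{τ | σ} τ(P_p)(p^{-s})^{-1}`, continued meromorphically to a half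
plane that contains `m`. For `K = E` this is the value of `L(s, σ, M)`. -/
def IsLValue (σ : K →+* ℂ) (m : ℤ) (v : ℂ) : Prop :=
  ∃ (f : ℂ → ℂ) (a b : ℝ), a < m ∧ MeromorphicOn f {s | a < s.re} ∧
    (∀ s : ℂ, b < s.re → HasProd (fun p : Nat.Primes =>
      ∏ τ : Above (E := E) K σ, (((M.P p).map τ.1).eval ((p : ℂ) ^ (-s)))⁻¹) (f s)) ∧
    AnalyticAt ℂ f m ∧ f m = v

/-- `(2 π i)^{m n^±}`, `n^± = dim_K M^±`, `± = (-1)^m` -/
noncomputable def twist (m : ℤ) : ℂ :=
  (2 * Real.pi * Complex.I) ^ (m * Module.finrank K (M.eig K ((-1) ^ m.natAbs)))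

/-- Deligne's statement for `Res_{E/K} M` at `m`, up to raising to the `k`-th power -/
def DelignePow (m : ℤ) (k : ℕ) : Prop :=
  ∀ v c : (K →+* ℂ) → ℂ, (∀ σ, M.IsLValue K σ m (v σ)) → M.IsPeriod K ((-1) ^ m.natAbs) c →
    ∃ e : K, ∀ σ : K →+* ℂ, v σ ^ k = σ e * (M.twist K m * c σ) ^ k

/-- Deligne's statement for `Res_{E/K} M` at `m`: `L(m, Res M) ∼_K (2 π i)^{m n^±} c^±(Res M)`, with
`± = (-1)^m`. For `K = E` this is Deligne's statement for `M`. -/
def Deligne (m : ℤ) : Prop :=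
  ∀ v c : (K →+* ℂ) → ℂ, (∀ σ, M.IsLValue K σ m (v σ)) → M.IsPeriod K ((-1) ^ m.natAbs) c →
    ∃ e : K, ∀ σ : K →+* ℂ, v σ = σ e * (M.twist K m * c σ)

end res

/-- `L(m, M)` is invertible in `E ⊗ ℂ` -/
def NonVanishing (m : ℤ) : Prop := ∀ τ v, M.IsLValue E τ m v → v ≠ 0

/-- Deligne's statement at `m` holds for `Res_{E/K} M` for all subfields `K ≠ E` -/
def DeligneBelow (m : ℤ) : Prop := ∀ K : IntermediateField ℚ E, K ≠ ⊤ → M.Deligne K m

end Motive

end Pool.Agent.H504.CF
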