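import Pool.Agent.H504.CF.Sharp
import Pool.Agent.H504.CF.Ab2

/-!
# The exact exponent for abelian coefficient fields
-/

set_option autoImplicit false
set_option linter.unusedSectionVars false

namespace Pool.Agent.H504.CF

variable {E : Type} [Field E] [NumberField E] [IsGalois ℚ E]

lemma isRat_pow_prime {r : (E →+* ℂ) → ℂ} (h0 : ∀ τ, r τ ≠ 0)
    (hr : ∀ K : IntermediateField ℚ E, K ≠ ⊤ → NormRat K r) {p q : ℕ} (hp : p.Prime)
    (hq : q.Prime) (hpq : p ≤ q) {H : Subgroup (E ≃ₐ[ℚ] E)} (hH : Nat.card H = p * q)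
    (hcyc : ¬ IsCyclic H) : IsRat fun τ => r τ ^ q := by
  obtain ⟨𝒞, h𝒞, hcard⟩ := exists_partition hp hq hpq hH hcyc
  refine isRat_pow_of_partition h𝒞 hcard h0 (fun C hC => ?_) ?_
  · exact hr _ (fixedField_ne_top (h𝒞.1 C hC).1)
  · refine hr _ (fixedField_ne_top ?_)
    rintro rfl
    rw [Subgroup.card_bot] at hH
    have h1 := hp.two_le
    have h2 := hq.two_le
    nlinarith

/-- `Γ` has a noncyclic subgroup of order `n` -/
def HasNoncyclic (Γ : Type) [Group Γ] (n : ℕ) : Prop :=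
  ∃ H : Subgroup Γ, Nat.card H = n ∧ ¬ IsCyclic H

/-- `Γ` has a noncyclic subgroup of order `p ^ 2` for a prime `p` that divides `k`, or for two
primes `p` -/
def Good (Γ : Type) [Group Γ] (k : ℕ) : Prop :=
  (∃ p : ℕ, p.Prime ∧ p ∣ k ∧ HasNoncyclic Γ (p * p)) ∨
  ∃ p q : ℕ, p.Prime ∧ q.Prime ∧ p ≠ q ∧ HasNoncyclic Γ (p * p) ∧ HasNoncyclic Γ (q * q)

/-- Every `r ∈ (E ⊗ ℂ)ˣ = ∏_τ ℂˣ` whose norm to `K ⊗ ℂ` lies in `K`, for all subfields `K ≠ E`, has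
its `k`-th power in `E`. -/
def NormExponent (E : Type) [Field E] [NumberField E] (k : ℕ) : Prop :=
  ∀ r : (E →+* ℂ) → ℂ, (∀ τ, r τ ≠ 0) →
    (∀ K : IntermediateField ℚ E, K ≠ ⊤ → NormRat K r) → IsRat fun τ => r τ ^ k

theorem isRat_of_good {k : ℕ} (hk : Good (E ≃ₐ[ℚ] E) k) {r : (E →+* ℂ) → ℂ} (h0 : ∀ τ, r τ ≠ 0)
    (hr : ∀ K : IntermediateField ℚ E, K ≠ ⊤ → NormRat K r) : IsRat fun τ => r τ ^ k := by
  rcases hk with ⟨p, hp, ⟨t, rfl⟩, H, hH, hcyc⟩ | ⟨p, q, hp, hq, hpq, ⟨H, hH, hcyc⟩, H', hH', hcyc'⟩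
  · have h1 := isRat_zpow (isRat_pow_prime h0 hr hp hp le_rfl hH hcyc) t
    simpa only [zpow_natCast, ← pow_mul] using h1
  · have h1 := isRat_pow_prime h0 hr hp hp le_rfl hH hcyc
    have h2 := isRat_pow_prime h0 hr hq hq le_rfl hH' hcyc'
    have h3 := isRat_zpow (isRat_of_coprime h0 ((Nat.coprime_primes hp hq).2 hpq) h1 h2) k
    simpa only [zpow_natCast] using h3

/-- The exact exponents for an abelian field `E ≠ ℚ`. -/
theorem abelian_iff (hcomm : ∀ g h : E ≃ₐ[ℚ] E, g * h = h * g) (hE : 1 < Module.finrank ℚ E)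
    {k : ℕ} (hk : 0 < k) : NormExponent E k ↔ Good (E ≃ₐ[ℚ] E) k := by
  refine ⟨fun h => ?_, fun h r h0 hr => isRat_of_good h h0 hr⟩
  let inst : CommGroup (E ≃ₐ[ℚ] E) := { (inferInstance : Group (E ≃ₐ[ℚ] E)) with
    mul_comm := hcomm }
  have hcard1 : Nat.card (E ≃ₐ[ℚ] E) ≠ 1 := by
    rw [IsGalois.card_aut_eq_finrank]
    exact hE.ne'
  obtain ⟨τ₀⟩ : Nonempty (E →+* ℂ) := inferInstance
  have hbad : ∀ l : ℕ, l.Prime → ¬ OneSub (E ≃ₐ[ℚ] E) l →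
      ∃ H : Subgroup (E ≃ₐ[ℚ] E), Nat.card H = l * l ∧ ¬ IsCyclic H :=
    fun l hl h => exists_noncyclic hl h
  by_contra hgood
  rw [Good, not_or] at hgood
  obtain ⟨hg1, hg2⟩ := hgood
  by_cases hall : ∀ l : ℕ, l.Prime → OneSub (E ≃ₐ[ℚ] E) l
  · -- no exponent works
    obtain ⟨y, hy1, ⟨g, hg⟩, hy⟩ := exists_int_fun hcard1 hall
    have h1 := h (ofFun τ₀ fun g => (2 : ℂ) ^ y g) (fun τ => zpow_ne_zero _ two_ne_zero)
      (fun K hK => normRat_ofFun τ₀ _ (fun l hl C hC => ⟨1, fun x => by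
        rw [finprod_zpow (C := C) _ two_ne_zero (fun c => y (x * c)), hy l hl C hC x, zpow_zero,
          Rat.cast_one]⟩) K hK)
    have h2 : IsRat (ofFun τ₀ fun g => (2 : ℂ) ^ (y g * k)) := by
      convert h1 using 2 with τ
      rw [ofFun, ofFun, ← zpow_natCast, ← zpow_mul]
    refine not_isRat_ofFun τ₀ _ (q := 2 ^ k) ?_ (g := g) ?_ h2
    · rw [hy1, one_mul, zpow_natCast]
      push_cast
      rfl
    · intro h3
      have h4 : ((2 : ℝ)) ^ (y g * k) = 2 ^ ((k : ℤ)) := by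
        have h5 : ((2 : ℝ) ^ (y g * k) : ℂ) = ((2 : ℝ) ^ ((k : ℤ)) : ℂ) := by
          push_cast at h3 ⊢
          rw [h3, zpow_natCast]
        exact_mod_cast h5
      have h5 := zpow_right_injective₀ (by norm_num : (0 : ℝ) < 2) (by norm_num) h4
      have h6 : (y g - 1) * (k : ℤ) = 0 := by linarith
      rcases mul_eq_zero.1 h6 with h7 | h7
      · exact hg (by linarith)
      · exact hk.ne' (by exact_mod_cast h7)
  · -- exactly one bad prime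
    push Not at hall
    obtain ⟨p, hp, hpb⟩ := hall
    have hone : ∀ l : ℕ, l.Prime → l ≠ p → OneSub (E ≃ₐ[ℚ] E) l := by
      intro l hl hlp
      by_contra hb
      exact hg2 ⟨l, p, hl, hp, hlp, hbad l hl hb, hbad p hp hpb⟩
    have hpG : p ∣ Nat.card (E ≃ₐ[ℚ] E) := by
      obtain ⟨H, hH, -⟩ := hbad p hp hpb
      exact (Dvd.intro _ hH.symm).trans (Subgroup.card_subgroup_dvd_card H)
    obtain ⟨f, hf0, hfr, q, hq, g, hg⟩ := exists_bad_fun hcard1 hp hone (Or.inr hpG)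
    have hr0 : ∀ τ, ofFun τ₀ f τ ≠ 0 := fun τ => hf0 _
    have hr := normRat_ofFun τ₀ f hfr
    obtain ⟨H, hH, hcyc⟩ := hbad p hp hpb
    have h1 := isRat_pow_prime hr0 hr hp hp le_rfl hH hcyc
    have h2 := h _ hr0 hr
    have hpk : ¬ p ∣ k := fun hd => hg1 ⟨p, hp, hd, H, hH, hcyc⟩
    exact not_isRat_ofFun τ₀ f hq hg
      (isRat_of_coprime hr0 ((Nat.Prime.coprime_iff_not_dvd hp).2 hpk) h1 h2)

end Pool.Agent.H504.CF
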