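import Mathlib

/-!
# Noncyclic groups of order `pq` are partitioned by `q + 1` subgroups (`p ≤ q`)
-/

set_option autoImplicit false
set_option linter.unusedSectionVars false

namespace Pool.Agent.H504.CF

variable {G : Type} [Group G] [Finite G]

/-- `𝒞` is a partition of `H`: subgroups `≠ 1` of `H` such that every `h ≠ 1` in `H` is in exactly one
of them -/
def IsPartition (H : Subgroup G) (𝒞 : Finset (Subgroup G)) : Prop :=
  (∀ C ∈ 𝒞, C ≠ ⊥ ∧ C ≤ H) ∧ ∀ h ∈ H, h ≠ 1 → ∃! C, C ∈ 𝒞 ∧ h ∈ C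

open Classical in
/-- the number of members of a partition that contain `h` -/
lemma count_eq [Fintype G] {H : Subgroup G} {𝒞 : Finset (Subgroup G)} (h𝒞 : IsPartition H 𝒞) (g : G) :
    (𝒞.filter fun C => g ∈ C).card = if g = 1 then 𝒞.card else if g ∈ H then 1 else 0 := by
  split_ifs with h1 h2
  · subst h1
    rw [Finset.filter_true_of_mem]
    exact fun C _ => C.one_mem
  · obtain ⟨C, ⟨hC, hgC⟩, huniq⟩ := h𝒞.2 g h2 h1
    rw [Finset.card_eq_one]
    refine ⟨C, ?_⟩
    ext C'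
    rw [Finset.mem_filter, Finset.mem_singleton]
    exact ⟨fun h => huniq C' h, fun h => h ▸ ⟨hC, hgC⟩⟩
  · rw [Finset.card_eq_zero, Finset.filter_eq_empty_iff]
    exact fun C hC hg => h2 ((h𝒞.1 C hC).2 hg)

open Classical in
lemma prod_partition [Fintype G] {H : Subgroup G} {𝒞 : Finset (Subgroup G)} (h𝒞 : IsPartition H 𝒞)
    {k : ℕ} (hk : 𝒞.card = k + 1) {A : Type} [CommMonoid A] (f : G → A) :
    ∏ C ∈ 𝒞, ∏ g : G, (if g ∈ C then f g else 1) =
      f 1 ^ k * ∏ g : G, (if g ∈ H then f g else 1) := by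
  rw [Finset.prod_comm]
  have h1 : ∀ g : G, ∏ C ∈ 𝒞, (if g ∈ C then f g else 1) =
      (if g = 1 then f 1 ^ k else 1) * (if g ∈ H then f g else 1) := by
    intro g
    rw [Finset.prod_ite, Finset.prod_const_one, mul_one, Finset.prod_const, count_eq h𝒞]
    split_ifs with h2 h3
    · subst h2
      rw [hk, pow_succ]
    · exact absurd (h2 ▸ H.one_mem) h3
    · rw [pow_one, one_mul]
    · rw [pow_zero, one_mul]
  simp_rw [h1]
  rw [Finset.prod_mul_distrib, Finset.prod_ite_eq' Finset.univ (1 : G) (fun _ => f 1 ^ k),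
    if_pos (Finset.mem_univ _)]

open Classical in
lemma sum_card [Fintype G] {H : Subgroup G} {𝒞 : Finset (Subgroup G)} (h𝒞 : IsPartition H 𝒞)
    {k : ℕ} (hk : 𝒞.card = k + 1) : ∑ C ∈ 𝒞, Nat.card C = k + Nat.card H := by
  have h1 := prod_partition h𝒞 hk (A := Multiplicative ℕ) (fun _ => Multiplicative.ofAdd 1)
  have h2 : ∀ S : Subgroup G, ∏ g : G, (if g ∈ S then Multiplicative.ofAdd 1 else 1) =
      Multiplicative.ofAdd (Nat.card S) := by
    intro S
    rw [Finset.prod_ite, Finset.prod_const_one, mul_one, Finset.prod_const, ← ofAdd_nsmul,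
      smul_eq_mul, mul_one, Nat.card_eq_fintype_card, Fintype.card_subtype]
  simp_rw [h2] at h1
  rw [← ofAdd_nsmul, smul_eq_mul, mul_one, ← ofAdd_add] at h1
  rw [← Multiplicative.ofAdd.injective.eq_iff, ← h1]
  exact ofAdd_sum _ _

theorem exists_partition {H : Subgroup G} {p q : ℕ} (hp : p.Prime) (hq : q.Prime) (hpq : p ≤ q)
    (hH : Nat.card H = p * q) (hcyc : ¬ IsCyclic H) :
    ∃ 𝒞 : Finset (Subgroup G), IsPartition H 𝒞 ∧ 𝒞.card = q + 1 := by
  classical
  have := Fintype.ofFinite G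
  have := Fintype.ofFinite (Subgroup G)
  set 𝒞 : Finset (Subgroup G) := Finset.univ.filter fun C => C ≤ H ∧ (Nat.card C).Prime with h𝒞
  -- orders of elements
  have hord : ∀ h ∈ H, h ≠ 1 → (orderOf h).Prime := by
    intro h hh h1
    have hd : orderOf h ∣ p * q := by
      rw [← hH, ← Subgroup.orderOf_mk h hh]
      exact orderOf_dvd_natCard _
    obtain ⟨a, b, ha, hb, hab⟩ := (Nat.dvd_mul).1 hd
    rcases (Nat.dvd_prime hp).1 ha with rfl | rfl
    · rcases (Nat.dvd_prime hq).1 hb with rfl | rfl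
      · exact absurd (orderOf_eq_one_iff.1 hab.symm) h1
      · rw [← hab, one_mul]; exact hq
    · rcases (Nat.dvd_prime hq).1 hb with rfl | rfl
      · rw [← hab, mul_one]; exact hp
      · refine absurd (isCyclic_of_orderOf_eq_card (⟨h, hh⟩ : H) ?_) hcyc
        rw [hH, Subgroup.orderOf_mk, hab]
  have hpart : IsPartition H 𝒞 := by
    refine ⟨fun C hC => ?_, fun h hh h1 => ?_⟩
    · rw [h𝒞, Finset.mem_filter] at hC
      refine ⟨?_, hC.2.1⟩
      rintro rfl
      exact Nat.not_prime_one (by simpa using hC.2.2)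
    · refine ⟨Subgroup.zpowers h, ⟨?_, Subgroup.mem_zpowers h⟩, ?_⟩
      · rw [h𝒞, Finset.mem_filter]
        refine ⟨Finset.mem_univ _, ?_, ?_⟩
        · rwa [Subgroup.zpowers_le]
        · rw [Nat.card_zpowers]
          exact hord h hh h1
      · rintro C ⟨hC, hhC⟩
        rw [h𝒞, Finset.mem_filter] at hC
        have h2 : Subgroup.zpowers h ≤ C := by rwa [Subgroup.zpowers_le]
        refine (Subgroup.eq_of_le_of_card_ge h2 ?_).symm
        have h3 : Nat.card (Subgroup.zpowers h) ∣ Nat.card C := Subgroup.card_dvd_of_le h2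
        rcases (Nat.dvd_prime hC.2.2).1 h3 with h4 | h4
        · rw [Nat.card_zpowers, orderOf_eq_one_iff] at h4
          exact absurd h4 h1
        · exact h4.ge
  refine ⟨𝒞, hpart, ?_⟩
  -- members have order p or q
  have hpq' : ∀ C ∈ 𝒞, Nat.card C = p ∨ Nat.card C = q := by
    intro C hC
    rw [h𝒞, Finset.mem_filter] at hC
    have h3 : Nat.card C ∣ p * q := hH ▸ Subgroup.card_dvd_of_le hC.2.1
    rcases (Nat.Prime.dvd_mul hC.2.2).1 h3 with h4 | h4
    · exact Or.inl ((Nat.prime_dvd_prime_iff_eq hC.2.2 hp).1 h4)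
    · exact Or.inr ((Nat.prime_dvd_prime_iff_eq hC.2.2 hq).1 h4)
  -- there is one of order q
  obtain ⟨Q, hQ, hQq⟩ : ∃ Q ∈ 𝒞, Nat.card Q = q := by
    have : Fact q.Prime := ⟨hq⟩
    obtain ⟨x, hx⟩ := exists_prime_orderOf_dvd_card' (G := H) q (by rw [hH]; exact dvd_mul_left q p)
    refine ⟨Subgroup.zpowers (x : G), ?_, ?_⟩
    · rw [h𝒞, Finset.mem_filter]
      refine ⟨Finset.mem_univ _, ?_, ?_⟩
      · rw [Subgroup.zpowers_le]; exact x.2
      · rw [Nat.card_zpowers, Subgroup.orderOf_coe, hx]; exact hq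
    · rw [Nat.card_zpowers, Subgroup.orderOf_coe, hx]
  obtain ⟨k, hk⟩ : ∃ k, 𝒞.card = k + 1 :=
    ⟨𝒞.card - 1, (Nat.succ_pred_eq_of_pos (Finset.card_pos.2 ⟨Q, hQ⟩)).symm⟩
  have hsum := sum_card hpart hk
  rw [hH] at hsum
  rw [hk]
  congr 1
  rcases hpq.eq_or_lt with rfl | hlt
  · have h5 : ∑ C ∈ 𝒞, Nat.card C = (k + 1) * p := by
      rw [← hk, ← smul_eq_mul, ← Finset.sum_const]
      exact Finset.sum_congr rfl fun C hC => (hpq' C hC).elim id id
    rw [h5] at hsum
    have h6 : 2 ≤ p := hp.two_le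
    have h7 : k * (p - 1) = p * (p - 1) := by
      obtain ⟨t, rfl⟩ : ∃ t, p = t + 2 := ⟨p - 2, by omega⟩
      have : t + 2 - 1 = t + 1 := rfl
      rw [this]
      nlinarith [hsum]
    exact Nat.eq_of_mul_eq_mul_right (by omega) h7
  · -- uniqueness of the subgroup of order q
    have huniq : ∀ C ∈ 𝒞, Nat.card C = q → C = Q := by
      intro C hC hCq
      by_contra hne
      have hdisj : Disjoint C Q := by
        rw [Subgroup.disjoint_def]
        intro x hxC hxQ
        by_contra hx1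
        have hxH : x ∈ H := (hpart.1 C hC).2 hxC
        obtain ⟨D, -, hD⟩ := hpart.2 x hxH hx1
        exact hne ((hD C ⟨hC, hxC⟩).trans (hD Q ⟨hQ, hxQ⟩).symm)
      have hinj := Subgroup.mul_injective_of_disjoint hdisj
      have hle : Nat.card (C × Q) ≤ Nat.card H := by
        refine Nat.card_le_card_of_injective (fun g : C × Q => (⟨g.1 * g.2,
          H.mul_mem ((hpart.1 C hC).2 g.1.2) ((hpart.1 Q hQ).2 g.2.2)⟩ : H)) ?_
        intro a b hab
        exact hinj (congrArg Subtype.val hab)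
      rw [Nat.card_prod, hCq, hQq, hH] at hle
      exact absurd (Nat.le_of_mul_le_mul_right hle hq.pos) (not_le.2 hlt)
    have h5 : ∑ C ∈ 𝒞, Nat.card C = q + k * p := by
      rw [← Finset.add_sum_erase _ _ hQ, hQq]
      congr 1
      have h6 : (𝒞.erase Q).card = k := by rw [Finset.card_erase_of_mem hQ, hk]; rfl
      rw [← h6, ← smul_eq_mul, ← Finset.sum_const]
      refine Finset.sum_congr rfl fun C hC => ?_
      rw [Finset.mem_erase] at hC
      exact (hpq' C hC.2).resolve_right fun h => hC.1 (huniq C hC.2 h)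
    rw [h5] at hsum
    have h6 : 2 ≤ p := hp.two_le
    have h7 : k * (p - 1) = q * (p - 1) := by
      obtain ⟨t, rfl⟩ : ∃ t, p = t + 2 := ⟨p - 2, by omega⟩
      have : t + 2 - 1 = t + 1 := rfl
      rw [this]
      nlinarith [hsum]
    exact Nat.eq_of_mul_eq_mul_right (by omega) h7

end Pool.Agent.H504.CF
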