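import Pool.Agent.H504.CF.Norm
import Pool.Agent.H504.CF.Group

/-!
# Functions on the embeddings of a Galois field whose norms to subfields are rational
-/

set_option autoImplicit false
set_option linter.unusedSectionVars false

namespace Pool.Agent.H504.CF

variable {E : Type} [Field E] [NumberField E]

/-- `(r_τ)_τ ∈ E ⊗ ℂ = ∏_τ ℂ` lies in `E` -/
def IsRat (r : (E →+* ℂ) → ℂ) : Prop := ∃ e : E, ∀ τ : E →+* ℂ, r τ = τ e

/-- the norm of `(r_τ)_τ ∈ E ⊗ ℂ` to `K ⊗ ℂ` lies in `K` -/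
def NormRat (K : IntermediateField ℚ E) (r : (E →+* ℂ) → ℂ) : Prop :=
  ∃ e : K, ∀ σ : K →+* ℂ, ∏ τ : Above (E := E) K σ, r τ.1 = σ e

lemma isRat_mul {r s : (E →+* ℂ) → ℂ} (hr : IsRat r) (hs : IsRat s) :
    IsRat (fun τ => r τ * s τ) := by
  obtain ⟨e, he⟩ := hr
  obtain ⟨f, hf⟩ := hs
  exact ⟨e * f, fun τ => by beta_reduce; rw [he, hf, map_mul]⟩

lemma isRat_zpow {r : (E →+* ℂ) → ℂ} (hr : IsRat r) (n : ℤ) :
    IsRat (fun τ => r τ ^ n) := by
  obtain ⟨e, he⟩ := hr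
  exact ⟨e ^ n, fun τ => by beta_reduce; rw [he, map_zpow₀]⟩

lemma isRat_prod {ι : Type} (s : Finset ι) {r : ι → (E →+* ℂ) → ℂ} (hr : ∀ i ∈ s, IsRat (r i)) :
    IsRat (fun τ => ∏ i ∈ s, r i τ) := by
  classical
  induction s using Finset.induction_on with
  | empty => exact ⟨1, fun τ => by simp⟩
  | insert a s ha ih =>
    simp_rw [Finset.prod_insert ha]
    exact isRat_mul (hr a (Finset.mem_insert_self a s))
      (ih fun i hi => hr i (Finset.mem_insert_of_mem hi))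

lemma isRat_of_coprime {r : (E →+* ℂ) → ℂ} (h0 : ∀ τ, r τ ≠ 0) {a b : ℕ} (hab : a.Coprime b)
    (ha : IsRat fun τ => r τ ^ a) (hb : IsRat fun τ => r τ ^ b) : IsRat r := by
  have h1 : (a : ℤ) * a.gcdA b + b * a.gcdB b = 1 := by
    rw [← Nat.gcd_eq_gcd_ab, hab.gcd_eq_one, Nat.cast_one]
  have h2 := isRat_mul (isRat_zpow ha (a.gcdA b)) (isRat_zpow hb (a.gcdB b))
  convert h2 using 2 with τ
  rw [← zpow_natCast, ← zpow_natCast, ← zpow_mul, ← zpow_mul, ← zpow_add₀ (h0 τ), h1, zpow_one]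

section Galois

variable [IsGalois ℚ E]

/-- the embeddings of `E` above `τ|_K`, for `K = E^H`, are the `τ ∘ h`, `h ∈ H` -/
noncomputable def aboveEquiv (H : Subgroup (E ≃ₐ[ℚ] E)) (τ : E →+* ℂ) :
    H ≃ Above (E := E) (IntermediateField.fixedField H)
      (τ.comp (algebraMap (IntermediateField.fixedField H) E)) :=
  Equiv.ofBijective (fun h => ⟨τ.comp (h : E ≃ₐ[ℚ] E).toAlgHom.toRingHom, by
    ext x
    exact congrArg τ (x.2 h)⟩) (by
    constructor
    · intro h h' hh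
      ext x
      have h1 := congrArg Subtype.val hh
      exact τ.injective (RingHom.congr_fun h1 x)
    · rintro ⟨τ', hτ'⟩
      let : Algebra E ℂ := τ.toAlgebra
      have : IsScalarTower ℚ E ℂ := IsScalarTower.rat
      let g₀ : E →ₐ[ℚ] E := AlgHom.restrictNormal (K₁ := E) (K₂ := ℂ) τ'.toRatAlgHom E
      have hg₀ : ∀ x, τ (g₀ x) = τ' x := fun x =>
        AlgHom.restrictNormal_commutes (K₁ := E) (K₂ := ℂ) τ'.toRatAlgHom E x
      let g : E ≃ₐ[ℚ] E := AlgEquiv.ofBijective g₀ (Algebra.IsAlgebraic.algHom_bijective g₀)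
      have hg : g ∈ H := by
        rw [← IntermediateField.fixingSubgroup_fixedField H]
        intro x
        have h2 := RingHom.congr_fun hτ' x
        refine τ.injective ?_
        exact (hg₀ x).trans h2
      exact ⟨⟨g, hg⟩, Subtype.ext (RingHom.ext hg₀)⟩)

lemma normRat_fixedField {H : Subgroup (E ≃ₐ[ℚ] E)} {r : (E →+* ℂ) → ℂ}
    (h : NormRat (IntermediateField.fixedField H) r) :
    IsRat fun τ => ∏ g : E ≃ₐ[ℚ] E, open Classical in
      if g ∈ H then r (τ.comp g.toAlgHom.toRingHom) else 1 := by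
  classical
  obtain ⟨e, he⟩ := h
  refine ⟨(e : E), fun τ => ?_⟩
  have h1 := he (τ.comp (algebraMap (IntermediateField.fixedField H) E))
  rw [← (aboveEquiv H τ).prod_comp] at h1
  beta_reduce
  rw [← Finset.prod_filter]
  refine (Finset.prod_subtype _ (p := (· ∈ H)) (fun g => ?_)
    (fun g : E ≃ₐ[ℚ] E => r (τ.comp g.toAlgHom.toRingHom))).trans h1
  rw [Finset.mem_filter]
  exact ⟨fun h => h.2, fun h => ⟨Finset.mem_univ _, h⟩⟩

/-- If `H` is partitioned by `k + 1` subgroups and the norms of `r` to the fixed fields of `H` and of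
these subgroups are rational, then `r ^ k` is rational. -/
theorem isRat_pow_of_partition {H : Subgroup (E ≃ₐ[ℚ] E)} {𝒞 : Finset (Subgroup (E ≃ₐ[ℚ] E))}
    (h𝒞 : IsPartition H 𝒞) {k : ℕ} (hk : 𝒞.card = k + 1) {r : (E →+* ℂ) → ℂ} (h0 : ∀ τ, r τ ≠ 0)
    (hC : ∀ C ∈ 𝒞, NormRat (IntermediateField.fixedField C) r)
    (hH : NormRat (IntermediateField.fixedField H) r) : IsRat fun τ => r τ ^ k := by
  classical
  have h1 := isRat_prod 𝒞 fun C hC' => normRat_fixedField (hC C hC')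
  have h2 := isRat_mul h1 (isRat_zpow (normRat_fixedField hH) (-1))
  convert h2 using 2 with τ
  have h3 := prod_partition h𝒞 hk (fun g : E ≃ₐ[ℚ] E => r (τ.comp g.toAlgHom.toRingHom))
  rw [h3]
  have h4 : ∏ g : E ≃ₐ[ℚ] E, (if g ∈ H then r (τ.comp g.toAlgHom.toRingHom) else 1) ≠ 0 := by
    refine Finset.prod_ne_zero_iff.2 fun g _ => ?_
    split_ifs
    · exact h0 _
    · exact one_ne_zero
  rw [zpow_neg_one, mul_assoc, mul_inv_cancel₀ h4, mul_one]
  rfl

end Galois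

end Pool.Agent.H504.CF
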