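import Pool.Agent.H504.CF.Period
import Pool.Agent.H504.CF.Galois

/-!
# Deligne's statement for a motive from its restrictions of coefficients
-/

set_option autoImplicit false
set_option linter.unusedSectionVars false

namespace Pool.Agent.H504.CF

open TensorProduct Polynomial

variable {E : Type} [Field E] [NumberField E]

lemma twist_ne_zero (M : Motive E) (m : ℤ) : M.twist E m ≠ 0 :=
  zpow_ne_zero _ Complex.two_pi_I_ne_zero

lemma twist_res (M : Motive E) (m : ℤ) (K : IntermediateField ℚ E) :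
    M.twist K m = M.twist E m ^ Module.finrank K E := by
  rw [Motive.twist, Motive.twist, M.finrank_eig, ← zpow_natCast, ← zpow_mul]
  congr 1
  push_cast
  ring

/-- The ratio of the `L`-value and the period has rational norms. -/
theorem normRat_of_deligne (M : Motive E) {m : ℤ} {v c : (E →+* ℂ) → ℂ}
    (hv : ∀ τ, M.IsLValue E τ m (v τ)) (hv0 : ∀ τ, v τ ≠ 0)
    (hc : M.IsPeriod E ((-1) ^ m.natAbs) c) {K : IntermediateField ℚ E} (hK : M.Deligne K m) :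
    (∀ τ, c τ ≠ 0) ∧ NormRat K (fun τ => v τ * (M.twist E m * c τ)⁻¹) := by
  obtain ⟨e, he⟩ := hK _ _ (M.isLValue_res K hv) (M.isPeriod_res K hc)
  have h0 : ∀ σ : K →+* ℂ, ∏ τ : Above (E := E) K σ, v τ.1 ≠ 0 := fun σ =>
    Finset.prod_ne_zero_iff.2 fun τ _ => hv0 τ.1
  have hc0 : ∀ τ, c τ ≠ 0 := by
    intro τ hτ
    refine h0 (τ.comp (algebraMap K E)) ?_
    rw [he, Finset.prod_eq_zero (i := (⟨τ, rfl⟩ : Above (E := E) K (τ.comp (algebraMap K E))))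
      (Finset.mem_univ _) hτ, mul_zero, mul_zero]
  refine ⟨hc0, e, fun σ => ?_⟩
  rw [Finset.prod_mul_distrib, he, Finset.prod_inv_distrib, Finset.prod_mul_distrib,
    Finset.prod_const, Finset.card_univ, card_above, twist_res]
  have h2 : M.twist E m ^ Module.finrank K E * ∏ τ : Above (E := E) K σ, c τ.1 ≠ 0 :=
    mul_ne_zero (pow_ne_zero _ (twist_ne_zero M m))
      (Finset.prod_ne_zero_iff.2 fun τ _ => hc0 τ.1)
  rw [mul_assoc, mul_inv_cancel₀ h2, mul_one]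

lemma fixedField_ne_top [IsGalois ℚ E] {H : Subgroup (E ≃ₐ[ℚ] E)} (h : H ≠ ⊥) :
    IntermediateField.fixedField H ≠ ⊤ := by
  intro h1
  apply h
  rw [← IntermediateField.fixingSubgroup_fixedField H, h1, IntermediateField.fixingSubgroup_top]

variable [IsGalois ℚ E]

/-- the ratio of the `L`-value and Deligne's period, to the power `k` -/
theorem isRat_of_partition (M : Motive E) {m : ℤ} {v c : (E →+* ℂ) → ℂ}
    (hv : ∀ τ, M.IsLValue E τ m (v τ)) (hv0 : ∀ τ, v τ ≠ 0)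
    (hc : M.IsPeriod E ((-1) ^ m.natAbs) c) (hK : M.DeligneBelow m)
    {H : Subgroup (E ≃ₐ[ℚ] E)} {𝒞 : Finset (Subgroup (E ≃ₐ[ℚ] E))}
    (h𝒞 : IsPartition H 𝒞) {k : ℕ} (hk : 𝒞.card = k + 1) :
    (∀ τ, c τ ≠ 0) ∧ IsRat (fun τ => (v τ * (M.twist E m * c τ)⁻¹) ^ k) := by
  obtain ⟨C, hC⟩ : 𝒞.Nonempty := Finset.card_pos.1 (by rw [hk]; exact Nat.succ_pos k)
  have hH : H ≠ ⊥ := fun h => (h𝒞.1 C hC).1 (le_bot_iff.1 (h ▸ (h𝒞.1 C hC).2))
  have h1 := normRat_of_deligne M hv hv0 hc (hK _ (fixedField_ne_top hH))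
  refine ⟨h1.1, isRat_pow_of_partition h𝒞 hk (fun τ => ?_) (fun C hC => ?_) h1.2⟩
  · exact mul_ne_zero (hv0 τ) (inv_ne_zero (mul_ne_zero (twist_ne_zero M m) (h1.1 τ)))
  · exact (normRat_of_deligne M hv hv0 hc (hK _ (fixedField_ne_top (h𝒞.1 C hC).1))).2

theorem deligne_of_isRat (M : Motive E) {m : ℤ} {v c : (E →+* ℂ) → ℂ} (hc0 : ∀ τ, c τ ≠ 0) {k : ℕ}
    (h : IsRat (fun τ => (v τ * (M.twist E m * c τ)⁻¹) ^ k)) :
    ∃ e : E, ∀ τ : E →+* ℂ, v τ ^ k = τ e * (M.twist E m * c τ) ^ k := by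
  obtain ⟨e, he⟩ := h
  refine ⟨e, fun τ => ?_⟩
  rw [← he τ]
  have h2 : M.twist E m * c τ ≠ 0 := mul_ne_zero (twist_ne_zero M m) (hc0 τ)
  rw [← mul_pow, mul_assoc, inv_mul_cancel₀ h2, mul_one]

/-- Deligne's statement up to `k`-th powers, if a subgroup is partitioned by `k + 1` subgroups -/
theorem delignePow_of_partition (M : Motive E) {m : ℤ}
    (hv0 : M.NonVanishing m) (hK : M.DeligneBelow m)
    {H : Subgroup (E ≃ₐ[ℚ] E)} {𝒞 : Finset (Subgroup (E ≃ₐ[ℚ] E))}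
    (h𝒞 : IsPartition H 𝒞) {k : ℕ} (hk : 𝒞.card = k + 1) : M.DelignePow E m k := by
  intro v c hv hc
  obtain ⟨h1, h2⟩ := isRat_of_partition M hv (fun τ => hv0 τ _ (hv τ)) hc hK h𝒞 hk
  exact deligne_of_isRat M h1 h2

/-- Deligne's statement, if two subgroups have noncyclic orders `p q`, with different `q` -/
theorem deligne_of_two (M : Motive E) {m : ℤ}
    (hv0 : M.NonVanishing m) (hK : M.DeligneBelow m)
    {H H' : Subgroup (E ≃ₐ[ℚ] E)} {𝒞 𝒞' : Finset (Subgroup (E ≃ₐ[ℚ] E))}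
    (h𝒞 : IsPartition H 𝒞) {k : ℕ} (hk : 𝒞.card = k + 1)
    (h𝒞' : IsPartition H' 𝒞') {k' : ℕ} (hk' : 𝒞'.card = k' + 1) (hkk' : k.Coprime k') :
    M.Deligne E m := by
  intro v c hv hc
  obtain ⟨h1, h2⟩ := isRat_of_partition M hv (fun τ => hv0 τ _ (hv τ)) hc hK h𝒞 hk
  obtain ⟨-, h3⟩ := isRat_of_partition M hv (fun τ => hv0 τ _ (hv τ)) hc hK h𝒞' hk'
  have h4 := isRat_of_coprime (fun τ => mul_ne_zero (hv0 τ _ (hv τ)) (inv_ne_zero
    (mul_ne_zero (twist_ne_zero M m) (h1 τ)))) hkk' h2 h3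
  have h5 := deligne_of_isRat M h1 (k := 1) (v := v) (by simpa only [pow_one] using h4)
  simpa only [pow_one] using h5

end Pool.Agent.H504.CF
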