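import Pool.Agent.H504.CF.Defs

/-!
# Norms through embeddings
-/

set_option autoImplicit false
set_option linter.unusedSectionVars false

namespace Pool.Agent.H504.CF

variable {E : Type} [Field E] [NumberField E] (K : Type) [Field K] [NumberField K] [Algebra K E]

instance finite_tower : FiniteDimensional K E := Module.Finite.of_restrictScalars_finite ℚ K E

/-- the matrix `(τ (b c))` -/
noncomputable def embMat {κ : Type} (b : Module.Basis κ K E) (σ : K →+* ℂ) :
    Matrix (Above (E := E) K σ) κ ℂ := Matrix.of fun τ c => τ.1 (b c)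

lemma exists_dual {κ : Type} [Fintype κ] [DecidableEq κ] (b : Module.Basis κ K E)
    (σ : K →+* ℂ) : ∃ Q : Matrix κ (Above (E := E) K σ) ℂ, Q * embMat K b σ = 1 ∧
      embMat K b σ * Q = 1 := by
  let : Algebra K ℂ := σ.toAlgebra
  let e : Above (E := E) K σ ≃ (E →ₐ[K] ℂ) :=
    { toFun := fun τ => { τ.1 with commutes' := fun x => RingHom.congr_fun τ.2 x }
      invFun := fun τ => ⟨τ.toRingHom, by
        ext x
        exact τ.commutes x⟩
      left_inv := fun τ => rfl
      right_inv := fun τ => rfl }
  have hcard : Fintype.card (Above (E := E) K σ) = Fintype.card κ := by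
    rw [Fintype.card_congr e, AlgHom.card K E ℂ, Module.finrank_eq_card_basis b]
  have h1 : (Algebra.traceMatrix K b).map (algebraMap K ℂ) =
      (embMat K b σ).transpose * embMat K b σ := by
    rw [Algebra.traceMatrix_eq_embeddingsMatrix_mul_trans K ℂ b]
    ext i j
    rw [Matrix.mul_apply, Matrix.mul_apply, ← e.sum_comp]
    rfl
  have h2 : (Algebra.traceMatrix K b).det ≠ 0 := by
    rw [← Algebra.discr_def]
    exact Algebra.discr_not_zero_of_basis K b
  have h3 : ((embMat K b σ).transpose * embMat K b σ).det ≠ 0 := by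
    rw [← h1]
    have := RingHom.map_det (algebraMap K ℂ) (Algebra.traceMatrix K b)
    rw [RingHom.mapMatrix_apply] at this
    rw [← this]
    exact (_root_.map_ne_zero _).2 h2
  have h4 : (((embMat K b σ).transpose * embMat K b σ)⁻¹ * (embMat K b σ).transpose) *
      embMat K b σ = 1 := by
    rw [Matrix.mul_assoc]
    exact Matrix.nonsing_inv_mul _ (Ne.isUnit h3)
  exact ⟨_, h4, (Matrix.mul_eq_one_comm_of_card_eq _ _ _ hcard.symm).1 h4⟩

/-- a functional `σ ∘ b_a^*` in terms of the embeddings above `σ` -/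
lemma coord_eq {κ : Type} [Fintype κ] [DecidableEq κ] (b : Module.Basis κ K E)
    (σ : K →+* ℂ) {Q : Matrix κ (Above (E := E) K σ) ℂ} (h : Q * embMat K b σ = 1) (a : κ) (x : E) :
    σ (b.repr x a) = ∑ τ : Above (E := E) K σ, Q a τ * τ.1 x := by
  have h1 : ∀ τ : Above (E := E) K σ, τ.1 x = ∑ c, embMat K b σ τ c * σ (b.repr x c) := by
    intro τ
    conv_lhs => rw [← b.sum_repr x]
    rw [map_sum]
    refine Finset.sum_congr rfl fun c _ => ?_
    rw [Algebra.smul_def, map_mul, mul_comm]
    congr 1
    exact RingHom.congr_fun τ.2 (b.repr x c)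
  calc σ (b.repr x a) = ∑ c, (Q * embMat K b σ) a c * σ (b.repr x c) := by
        rw [h]
        simp [Matrix.one_apply]
    _ = ∑ τ : Above (E := E) K σ, Q a τ * τ.1 x := by
        simp_rw [h1, Matrix.mul_apply, Finset.sum_mul, Finset.mul_sum]
        rw [Finset.sum_comm]
        refine Finset.sum_congr rfl fun τ _ => Finset.sum_congr rfl fun c _ => ?_
        ring

lemma card_above (σ : K →+* ℂ) : Fintype.card (Above (E := E) K σ) = Module.finrank K E := by
  obtain ⟨Q, hQ, hQ'⟩ := exists_dual (E := E) K (Module.finBasis K E) σ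
  have h := Matrix.trace_mul_comm Q (embMat K (Module.finBasis K E) σ)
  rw [hQ, hQ', Matrix.trace_one, Matrix.trace_one, Fintype.card_fin] at h
  exact_mod_cast h.symm

end Pool.Agent.H504.CF
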