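import Pool.Agent.H504.CF.Norm

/-!
# The period and the L-values of a motive after restriction of coefficients
-/

set_option autoImplicit false
set_option linter.unusedSectionVars false

namespace Pool.Agent.H504.CF

open TensorProduct Polynomial

section

variable {E V : Type} [Field E] [AddCommGroup V] [Module E V] [Module ℚ V]

lemma ext_tmul (f : V →+ ℂ) (z : ℂ) (x : V) : ext f (z ⊗ₜ[ℚ] x) = z * f x := by
  rw [ext, LinearMap.liftBaseChange_tmul, smul_eq_mul]
  rfl

lemma act_tmul (e : E) (z : ℂ) (x : V) : act V e (z ⊗ₜ[ℚ] x) = z ⊗ₜ[ℚ] (e • x) := by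
  rw [act, LinearMap.baseChange_tmul]
  rfl

lemma ext_act (τ : E →+* ℂ) (f : V →ₗ[E] E) (e : E) (x : ℂ ⊗[ℚ] V) :
    ext (τ.toAddMonoidHom.comp f.toAddMonoidHom) (act V e x) =
      τ e * ext (τ.toAddMonoidHom.comp f.toAddMonoidHom) x := by
  induction x using TensorProduct.induction_on with
  | zero => simp
  | tmul z x =>
    rw [act_tmul, ext_tmul, ext_tmul]
    change z * τ (f (e • x)) = τ e * (z * τ (f x))
    rw [map_smul, smul_eq_mul, map_mul]
    ring
  | add x y hx hy => rw [map_add, map_add, map_add, hx, hy, mul_add]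

end

namespace Motive

variable {E : Type} [Field E] [NumberField E] (M : Motive E)
  (K : Type) [Field K] [NumberField K] [Algebra K E]

/-- the two descriptions of `M^±` -/
noncomputable def eigEquiv (s : ℤ) : M.eig E s ≃ₗ[K] M.eig K s where
  toFun x := ⟨x.1, x.2⟩
  invFun x := ⟨x.1, x.2⟩
  map_add' _ _ := rfl
  map_smul' _ _ := rfl
  left_inv _ := rfl
  right_inv _ := rfl

/-- the two descriptions of `M_DR / F^±` -/
noncomputable def quoEquiv : ((Fin M.N → E) ⧸ M.filp E) ≃ₗ[K] ((Fin M.N → E) ⧸ M.filp K) :=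
  (Submodule.Quotient.restrictScalarsEquiv K (M.filp E)).symm

lemma finrank_eig (s : ℤ) : Module.finrank K (M.eig K s) =
    Module.finrank K E * Module.finrank E (M.eig E s) := by
  rw [← (M.eigEquiv K s).finrank_eq, Module.finrank_mul_finrank]

/-- The Deligne period of `Res_{E/K} M` is the norm of that of `M`. -/
theorem isPeriod_res {s : ℤ} {c : (E →+* ℂ) → ℂ} (h : M.IsPeriod E s c) :
    M.IsPeriod K s (fun σ => ∏ τ : Above (E := E) K σ, c τ.1) := by
  classical
  obtain ⟨ι, _, _, v, u, h⟩ := h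
  set b := Module.finBasis K E with hb
  refine ⟨_, inferInstance, inferInstance, (b.smulTower v).map (M.eigEquiv K s),
    (b.smulTower u).map (M.quoEquiv K), fun σ => ?_⟩
  obtain ⟨Q, hQ, hQ'⟩ := exists_dual K b σ
  let X : Above (E := E) K σ → Matrix ι ι ℂ := fun τ =>
    Matrix.of fun i j => entry M.I (M.filp E) τ.1 (u.coord i) (v j)
  have h1 : (Matrix.of fun (i j : Fin (Module.finrank K E) × ι) =>
      entry M.I (M.filp K) σ (((b.smulTower u).map (M.quoEquiv K)).coord i)
        (((b.smulTower v).map (M.eigEquiv K s)) j)) =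
      (Matrix.kroneckerMap (· * ·) Q (1 : Matrix ι ι ℂ)) *
        (Matrix.blockDiagonal X).reindex (Equiv.prodComm _ _) (Equiv.prodComm _ _) *
        (Matrix.kroneckerMap (· * ·) (embMat K b σ) (1 : Matrix ι ι ℂ)) := by
    ext ⟨a, i⟩ ⟨c, j⟩
    rw [Matrix.of_apply, Module.Basis.map_apply, entry]
    have h3 : ∀ y : ℂ ⊗[ℚ] (Fin M.N → E),
        ext (σ.toAddMonoidHom.comp ((((b.smulTower u).map (M.quoEquiv K)).coord (a, i)).comp
          (M.filp K).mkQ).toAddMonoidHom) y =
        ∑ τ : Above (E := E) K σ, Q a τ *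
          ext (τ.1.toAddMonoidHom.comp ((u.coord i).comp (M.filp E).mkQ).toAddMonoidHom) y := by
      intro y
      induction y using TensorProduct.induction_on with
      | zero => simp
      | tmul z x =>
        simp only [ext_tmul]
        change z * σ ((b.smulTower u).repr ((M.quoEquiv K).symm ((M.filp K).mkQ x)) (a, i)) = _
        rw [Module.Basis.smulTower_repr_mk, coord_eq K b σ hQ, Finset.mul_sum]
        refine Finset.sum_congr rfl fun τ _ => ?_
        change _ = Q a τ * (z * τ.1 (u.repr ((M.filp E).mkQ x) i))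
        rw [mul_left_comm]
        rfl
      | add x y hx hy =>
        rw [map_add, hx, hy, ← Finset.sum_add_distrib]
        exact Finset.sum_congr rfl fun τ _ => by rw [map_add]; ring
    have h4 : (1 : ℂ) ⊗ₜ[ℚ] ((M.eigEquiv K s ((b.smulTower v) (c, j)) : M.eig K s) :
        Fin M.N → E) = act (Fin M.N → E) (b c) ((1 : ℂ) ⊗ₜ[ℚ] ((v j : Fin M.N → E))) := by
      rw [act_tmul, Module.Basis.smulTower_apply]
      rfl
    rw [h4, M.isLin, h3]
    simp only [ext_act]
    rw [Matrix.mul_apply]
    simp only [Matrix.mul_apply, Fintype.sum_prod_type, Matrix.kroneckerMap_apply,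
      Matrix.reindex_apply, Matrix.submatrix_apply, Equiv.prodComm_symm, Equiv.prodComm_apply,
      Prod.swap_prod_mk, Matrix.blockDiagonal_apply, Matrix.one_apply]
    simp [X, embMat, entry, Finset.sum_ite_eq, mul_comm, mul_left_comm]
  rw [h1, Matrix.det_conj_of_mul_eq_one, Matrix.reindex_apply, Matrix.det_submatrix_equiv_self,
    Matrix.det_blockDiagonal]
  · exact Finset.prod_congr rfl fun τ _ => h τ.1
  · rw [← Matrix.mul_kronecker_mul, hQ, Matrix.mul_one, Matrix.one_kronecker_one]
  · rw [← Matrix.mul_kronecker_mul, hQ', Matrix.mul_one, Matrix.one_kronecker_one]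

/-- the only embedding of `E` above `τ` is `τ` -/
lemma prod_self (τ : E →+* ℂ) (g : (E →+* ℂ) → ℂ) :
    ∏ t : Above (E := E) E τ, g t.1 = g τ := by
  rw [Fintype.prod_eq_single (⟨τ, RingHom.ext fun x => rfl⟩ : Above (E := E) E τ)]
  rintro ⟨t, ht⟩ hne
  exact absurd (Subtype.ext (show t = τ from ht)) hne

/-- The L-values of `Res_{E/K} M` are the norms of those of `M`. -/
theorem isLValue_res {m : ℤ} {v : (E →+* ℂ) → ℂ} (h : ∀ τ, M.IsLValue E τ m (v τ))
    (σ : K →+* ℂ) : M.IsLValue K σ m (∏ τ : Above (E := E) K σ, v τ.1) := by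
  choose f a b h1 h2 h3 h4 h5 using h
  have : Nonempty (Above (E := E) K σ) := by
    rw [← Fintype.card_pos_iff, card_above]
    exact Module.finrank_pos
  refine ⟨fun s => ∏ τ : Above (E := E) K σ, f τ.1 s, Finset.univ.sup' Finset.univ_nonempty
    (fun τ : Above (E := E) K σ => a τ.1), Finset.univ.sup' Finset.univ_nonempty
    (fun τ : Above (E := E) K σ => b τ.1), ?_, ?_, ?_, ?_, ?_⟩
  · rw [Finset.sup'_lt_iff]
    exact fun τ _ => h1 τ.1
  · refine MeromorphicOn.fun_prod fun τ _ => (h2 τ.1).mono_set fun s hs => ?_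
    exact lt_of_le_of_lt
      (Finset.le_sup' (fun τ : Above (E := E) K σ => a τ.1) (Finset.mem_univ τ)) hs
  · intro s hs
    rw [Finset.sup'_lt_iff] at hs
    refine hasProd_prod fun τ _ => ?_
    have h6 := h3 τ.1 s (hs τ (Finset.mem_univ τ))
    have h7 : (fun p : Nat.Primes => ∏ t : Above (E := E) E τ.1,
        (((M.P p).map t.1).eval ((p : ℂ) ^ (-s)))⁻¹) =
        fun p : Nat.Primes => (((M.P p).map τ.1).eval ((p : ℂ) ^ (-s)))⁻¹ := by
      funext p
      exact prod_self τ.1 (fun t => (((M.P p).map t).eval ((p : ℂ) ^ (-s)))⁻¹)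
    rw [h7] at h6
    exact h6
  · exact Finset.analyticAt_fun_prod _ fun τ _ => h4 τ.1
  · exact Finset.prod_congr rfl fun τ _ => h5 τ.1

end Motive

end Pool.Agent.H504.CF
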