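import Pool.Agent.H504.CF.Main

/-!
# Symmetric groups
-/

set_option autoImplicit false
set_option linter.unusedSectionVars false

namespace Pool.Agent.H504.CF

lemma exists_range {G A : Type} [Group G] [Finite G] [Group A] (φ : A →* G)
    (hφ : Function.Injective φ) {p q : ℕ} (hp : p.Prime) (hq : q.Prime) (hpq : p ≤ q)
    (hA : Nat.card A = p * q) (hcyc : ¬ IsCyclic A) :
    ∃ (H : Subgroup G) (𝒞 : Finset (Subgroup G)), IsPartition H 𝒞 ∧ 𝒞.card = q + 1 := by
  refine ⟨φ.range, exists_partition hp hq hpq ?_ ?_⟩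
  · rw [← Nat.card_congr (MonoidHom.ofInjective hφ).toEquiv, hA]
  · intro h
    exact hcyc (isCyclic_of_surjective (MonoidHom.ofInjective hφ).symm
      (MonoidHom.ofInjective hφ).symm.surjective)

lemma sym_three : ¬ IsCyclic (Equiv.Perm (Fin 3)) := by
  intro h
  have h1 := h.commGroup.mul_comm
  have h2 : ∀ a b : Equiv.Perm (Fin 3), a * b = b * a := by
    intro a b
    exact h1 a b
  revert h2
  decide

lemma sym_two_two : ¬ IsCyclic (Equiv.Perm (Fin 2) × Equiv.Perm (Fin 2)) := by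
  rintro ⟨g, hg⟩
  have h1 : ∀ x : Equiv.Perm (Fin 2) × Equiv.Perm (Fin 2), x ^ 2 = 1 := by decide
  have h2 := orderOf_eq_card_of_forall_mem_zpowers hg
  have h3 := orderOf_dvd_of_pow_eq_one (h1 g)
  rw [h2, Nat.card_prod, Nat.card_eq_fintype_card, Fintype.card_perm, Fintype.card_fin] at h3
  revert h3
  decide

/-- `S_n`, `n ≥ 4`, has subgroups with partitions into `3` and into `4` subgroups -/
theorem sym_partitions {G : Type} [Group G] [Finite G] {n : ℕ} (hn : 4 ≤ n)
    (e : G ≃* Equiv.Perm (Fin n)) :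
    (∃ (H : Subgroup G) (𝒞 : Finset (Subgroup G)), IsPartition H 𝒞 ∧ 𝒞.card = 2 + 1) ∧
    ∃ (H : Subgroup G) (𝒞 : Finset (Subgroup G)), IsPartition H 𝒞 ∧ 𝒞.card = 3 + 1 := by
  constructor
  · let ι : Fin 2 ⊕ Fin 2 ↪ Fin n := finSumFinEquiv.toEmbedding.trans (Fin.castLEEmb hn)
    refine exists_range (e.symm.toMonoidHom.comp
      ((Equiv.Perm.viaEmbeddingHom ι).comp (Equiv.Perm.sumCongrHom (Fin 2) (Fin 2)))) ?_
      Nat.prime_two Nat.prime_two le_rfl ?_ sym_two_two
    · exact e.symm.injective.comp ((Equiv.Perm.viaEmbeddingHom_injective ι).comp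
        Equiv.Perm.sumCongrHom_injective)
    · rw [Nat.card_prod, Nat.card_eq_fintype_card, Fintype.card_perm, Fintype.card_fin]
      rfl
  · let ι : Fin 3 ↪ Fin n := Fin.castLEEmb (by omega)
    refine exists_range (e.symm.toMonoidHom.comp (Equiv.Perm.viaEmbeddingHom ι)) ?_
      Nat.prime_two Nat.prime_three (by norm_num) ?_ sym_three
    · exact e.symm.injective.comp (Equiv.Perm.viaEmbeddingHom_injective ι)
    · rw [Nat.card_eq_fintype_card, Fintype.card_perm, Fintype.card_fin]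
      rfl

end Pool.Agent.H504.CF
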