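import Pool.Agent.H504.CF.Final
import Pool.Agent.H504.CF.Sym

/-!
# Norm relations
-/

set_option autoImplicit false
set_option linter.unusedSectionVars false

namespace Pool.Agent.H504.CF

variable {E : Type} [Field E] [NumberField E] [IsGalois ℚ E]

open Classical in
/-- A norm relation with denominator `k` in the group ring of `Γ`: `k = ∑_j n_j g_j N_{H_j}`, where
`N_H = ∑_{h ∈ H} h` and the subgroups `H_j` are nontrivial. -/
def NormRelation (Γ : Type) [Group Γ] (k : ℕ) : Prop :=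
  ∃ (ι : Type) (_ : Fintype ι) (n : ι → ℤ) (g : ι → Γ) (H : ι → Subgroup Γ), (∀ j, H j ≠ ⊥) ∧
    ∀ x : Γ, ∑ j, (if (g j)⁻¹ * x ∈ H j then n j else 0) = if x = 1 then (k : ℤ) else 0

/-- `Γ` has a noncyclic subgroup of order `p q`, for primes `p ≤ q` -/
def HasPQ (Γ : Type) [Group Γ] (q : ℕ) : Prop :=
  ∃ p : ℕ, p.Prime ∧ q.Prime ∧ p ≤ q ∧ HasNoncyclic Γ (p * q)

theorem isRat_of_normRelation {k : ℕ} (h : NormRelation (E ≃ₐ[ℚ] E) k) {r : (E →+* ℂ) → ℂ}
    (h0 : ∀ τ, r τ ≠ 0) (hr : ∀ K : IntermediateField ℚ E, K ≠ ⊤ → NormRat K r) :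
    IsRat fun τ => r τ ^ k := by
  classical
  obtain ⟨ι, _, n, g, H, hH, hrel⟩ := h
  have h1 : ∀ j, IsRat (nm (H j) r) := fun j => normRat_fixedField (hr _ (fixedField_ne_top (hH j)))
  choose e he using h1
  refine ⟨∏ j, (g j (e j)) ^ n j, fun τ => ?_⟩
  have h2 : ∀ j, τ ((g j (e j)) ^ n j) =
      ∏ x : E ≃ₐ[ℚ] E, r (cmp τ x) ^ (if (g j)⁻¹ * x ∈ H j then n j else 0) := by
    intro j
    rw [map_zpow₀]
    have h3 : τ (g j (e j)) = nm (H j) r (cmp τ (g j)) := (he j (cmp τ (g j))).symm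
    rw [h3, nm, ← Finset.prod_zpow, ← Equiv.prod_comp (Equiv.mulLeft (g j)⁻¹)]
    refine Finset.prod_congr rfl fun x _ => ?_
    rw [Equiv.coe_mulLeft, ← cmp_mul, mul_inv_cancel_left]
    split_ifs
    · rfl
    · rw [one_zpow, zpow_zero]
  rw [map_prod, Finset.prod_congr rfl fun j _ => h2 j, Finset.prod_comm]
  have h4 : ∀ x : E ≃ₐ[ℚ] E, ∏ j, r (cmp τ x) ^ (if (g j)⁻¹ * x ∈ H j then n j else 0) =
      if x = 1 then r τ ^ k else 1 := by
    intro x
    have h5 : ∀ s : Finset ι, ∏ j ∈ s, r (cmp τ x) ^ (if (g j)⁻¹ * x ∈ H j then n j else 0) =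
        r (cmp τ x) ^ (∑ j ∈ s, if (g j)⁻¹ * x ∈ H j then n j else 0) := by
      intro s
      induction s using Finset.induction_on with
      | empty => simp
      | insert a s ha ih => rw [Finset.prod_insert ha, Finset.sum_insert ha, ih, zpow_add₀ (h0 _)]
    rw [h5, hrel]
    split_ifs with hx
    · subst hx
      rw [zpow_natCast]
      rfl
    · rw [zpow_zero]
  rw [Finset.prod_congr rfl fun x _ => h4 x, Finset.prod_ite_eq' Finset.univ (1 : E ≃ₐ[ℚ] E)
    (fun _ => r τ ^ k), if_pos (Finset.mem_univ _)]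

theorem delignePow_of_normRelation (M : Motive E) {m : ℤ} {k : ℕ}
    (h : NormRelation (E ≃ₐ[ℚ] E) k) (hv0 : M.NonVanishing m) (hK : M.DeligneBelow m) :
    M.DelignePow E m k := by
  intro v c hv hc
  by_cases hE : (⊥ : IntermediateField ℚ E) = ⊤
  · -- then the group is trivial and `k = 0`
    obtain ⟨ι, _, n, g, H, hH, hrel⟩ := h
    have hι : IsEmpty ι := ⟨fun j => fixedField_ne_top (hH j) (top_le_iff.1 (hE ▸ bot_le))⟩
    have h1 := hrel 1
    rw [Finset.univ_eq_empty, Finset.sum_empty, if_pos rfl] at h1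
    have h2 : k = 0 := by exact_mod_cast h1.symm
    subst h2
    exact ⟨1, fun τ => by simp⟩
  have h1 := normRat_of_deligne M hv (fun τ => hv0 τ _ (hv τ)) hc (hK ⊥ hE)
  refine deligne_of_isRat M h1.1 (isRat_of_normRelation h (fun τ => ?_) fun K hK' =>
    (normRat_of_deligne M hv (fun τ => hv0 τ _ (hv τ)) hc (hK K hK')).2)
  exact mul_ne_zero (hv0 τ _ (hv τ)) (inv_ne_zero (mul_ne_zero (twist_ne_zero M m) (h1.1 τ)))

/-- a partition gives a norm relation -/
theorem normRelation_of_partition {Γ : Type} [Group Γ] [Finite Γ] {H : Subgroup Γ}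
    {𝒞 : Finset (Subgroup Γ)} (h𝒞 : IsPartition H 𝒞) {k : ℕ} (hk : 𝒞.card = k + 1) :
    NormRelation Γ k := by
  classical
  have := Fintype.ofFinite Γ
  obtain ⟨C, hC⟩ : 𝒞.Nonempty := Finset.card_pos.1 (by rw [hk]; exact Nat.succ_pos k)
  have hH : H ≠ ⊥ := fun h => (h𝒞.1 C hC).1 (le_bot_iff.1 (h ▸ (h𝒞.1 C hC).2))
  refine ⟨Option 𝒞, inferInstance, fun j => j.elim (-1) (fun _ => 1), fun _ => 1,
    fun j => j.elim H (fun C => C.1), ?_, fun x => ?_⟩
  · rintro (_ | C)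
    · exact hH
    · exact (h𝒞.1 C.1 C.2).1
  · rw [Fintype.sum_option]
    simp only [Option.elim, inv_one, one_mul]
    have h1 : ∑ C : 𝒞, (if x ∈ C.1 then (1 : ℤ) else 0) = ((𝒞.filter fun C => x ∈ C).card : ℤ) := by
      rw [Finset.sum_coe_sort 𝒞 (fun C => if x ∈ C then (1 : ℤ) else 0), Finset.card_filter]
      push_cast
      rfl
    rw [h1, count_eq h𝒞]
    by_cases hx : x = 1
    · subst hx
      rw [if_pos (Subgroup.one_mem H), if_pos rfl, if_pos rfl, hk]
      push_cast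
      ring
    · rw [if_neg hx, if_neg hx]
      split_ifs <;> norm_num

end Pool.Agent.H504.CF
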