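import Pool.Agent.H504.CF.Main
import Pool.Agent.H504.CF.Ab

/-!
# Sharpness for abelian coefficient fields
-/

set_option autoImplicit false
set_option linter.unusedSectionVars false

namespace Pool.Agent.H504.CF

variable {E : Type} [Field E] [NumberField E] [IsGalois ℚ E]

/-- `τ ∘ g` -/
noncomputable abbrev cmp (τ : E →+* ℂ) (g : E ≃ₐ[ℚ] E) : E →+* ℂ := τ.comp g.toAlgHom.toRingHom

/-- the norm over `H` -/
noncomputable def nm (H : Subgroup (E ≃ₐ[ℚ] E)) (r : (E →+* ℂ) → ℂ) (τ : E →+* ℂ) : ℂ :=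
  ∏ g : E ≃ₐ[ℚ] E, open Classical in if g ∈ H then r (cmp τ g) else 1

lemma cmp_mul (τ : E →+* ℂ) (g h : E ≃ₐ[ℚ] E) : cmp τ (g * h) = cmp (cmp τ g) h := rfl

lemma prod_above (H : Subgroup (E ≃ₐ[ℚ] E)) (r : (E →+* ℂ) → ℂ) (τ : E →+* ℂ) :
    ∏ t : Above (E := E) (IntermediateField.fixedField H)
      (τ.comp (algebraMap (IntermediateField.fixedField H) E)), r t.1 = nm H r τ := by
  classical
  rw [← (aboveEquiv H τ).prod_comp, nm, ← Finset.prod_filter]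
  refine (Finset.prod_subtype _ (p := (· ∈ H)) (fun g => ?_)
    (fun g : E ≃ₐ[ℚ] E => r (cmp τ g))).symm
  rw [Finset.mem_filter]
  exact ⟨fun h => h.2, fun h => ⟨Finset.mem_univ _, h⟩⟩

lemma nm_cmp (H : Subgroup (E ≃ₐ[ℚ] E)) (r : (E →+* ℂ) → ℂ) (τ : E →+* ℂ) {h : E ≃ₐ[ℚ] E}
    (hh : h ∈ H) : nm H r (cmp τ h) = nm H r τ := by
  classical
  rw [nm, nm]
  refine Fintype.prod_equiv (Equiv.mulLeft h) _ _ fun g => ?_
  rw [Equiv.coe_mulLeft, cmp_mul]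
  simp only [H.mul_mem_cancel_left hh]

lemma nm_of_le {C H : Subgroup (E ≃ₐ[ℚ] E)} (hCH : C ≤ H) {r : (E →+* ℂ) → ℂ} {e : E}
    (he : ∀ τ, nm C r τ = τ e) :
    ∃ e' : E, ∀ τ, nm H r τ = τ e' := by
  classical
  refine ⟨∏ q : (E ≃ₐ[ℚ] E) ⧸ C, if q.out ∈ H then q.out e else 1, fun τ => ?_⟩
  rw [map_prod, nm, ← Finset.prod_fiberwise Finset.univ
    (fun g : E ≃ₐ[ℚ] E => (g : (E ≃ₐ[ℚ] E) ⧸ C))]
  refine Finset.prod_congr rfl fun q _ => ?_
  rw [Finset.prod_filter]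
  have h1 : ∀ c : E ≃ₐ[ℚ] E, (if ((q.out * c : E ≃ₐ[ℚ] E) : (E ≃ₐ[ℚ] E) ⧸ C) = q then
      (if q.out * c ∈ H then r (cmp τ (q.out * c)) else 1) else 1) =
      if q.out ∈ H then (if c ∈ C then r (cmp (cmp τ q.out) c) else 1) else 1 := by
    intro c
    have h2 : ((q.out * c : E ≃ₐ[ℚ] E) : (E ≃ₐ[ℚ] E) ⧸ C) = q ↔ c ∈ C := by
      conv_lhs => rw [← QuotientGroup.out_eq' q]
      rw [eq_comm, QuotientGroup.eq]
      simp
    by_cases hc : c ∈ C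
    · rw [if_pos (h2.2 hc), if_pos hc, cmp_mul]
      simp only [H.mul_mem_cancel_right (hCH hc)]
    · rw [if_neg (fun h => hc (h2.1 h)), if_neg hc, ite_self]
  rw [← Equiv.prod_comp (Equiv.mulLeft q.out)]
  refine (Finset.prod_congr rfl fun c _ => h1 c).trans ?_
  split_ifs with hq
  · exact he (cmp τ q.out)
  · simp

lemma normRat_of_le {C H : Subgroup (E ≃ₐ[ℚ] E)} (hCH : C ≤ H) {r : (E →+* ℂ) → ℂ} {e : E}
    (he : ∀ τ, nm C r τ = τ e) : NormRat (IntermediateField.fixedField H) r := by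
  obtain ⟨e', he'⟩ := nm_of_le hCH he
  have hfix : e' ∈ IntermediateField.fixedField H := by
    rintro ⟨h, hh⟩
    obtain ⟨τ⟩ : Nonempty (E →+* ℂ) := inferInstance
    apply τ.injective
    have h1 := nm_cmp H r τ hh
    rw [he', he'] at h1
    exact h1
  refine ⟨⟨e', hfix⟩, fun σ => ?_⟩
  obtain ⟨τ, hτ⟩ : Nonempty (Above (E := E) (IntermediateField.fixedField H) σ) := by
    rw [← Fintype.card_pos_iff, card_above]
    exact Module.finrank_pos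
  subst hτ
  rw [prod_above, he']
  rfl

/-- the embeddings of `E` are the `τ₀ ∘ g` -/
noncomputable def embEquiv (τ₀ : E →+* ℂ) : (E ≃ₐ[ℚ] E) ≃ (E →+* ℂ) :=
  Equiv.ofBijective (fun g => cmp τ₀ g) (by
    constructor
    · intro h h' hh
      ext x
      exact τ₀.injective (RingHom.congr_fun hh x)
    · intro τ'
      let : Algebra E ℂ := τ₀.toAlgebra
      have : IsScalarTower ℚ E ℂ := IsScalarTower.rat
      let g₀ : E →ₐ[ℚ] E := AlgHom.restrictNormal (K₁ := E) (K₂ := ℂ) τ'.toRatAlgHom E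
      have hg₀ : ∀ x, τ₀ (g₀ x) = τ' x := fun x =>
        AlgHom.restrictNormal_commutes (K₁ := E) (K₂ := ℂ) τ'.toRatAlgHom E x
      exact ⟨AlgEquiv.ofBijective g₀ (Algebra.IsAlgebraic.algHom_bijective g₀),
        RingHom.ext hg₀⟩)

/-- the function on embeddings given by a function on the group -/
noncomputable def ofFun (τ₀ : E →+* ℂ) (f : (E ≃ₐ[ℚ] E) → ℂ) : (E →+* ℂ) → ℂ :=
  fun τ => f ((embEquiv τ₀).symm τ)

lemma ofFun_cmp (τ₀ : E →+* ℂ) (f : (E ≃ₐ[ℚ] E) → ℂ) (g : E ≃ₐ[ℚ] E) :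
    ofFun τ₀ f (cmp τ₀ g) = f g := by
  rw [ofFun]
  congr 1
  exact (embEquiv τ₀).symm_apply_apply g

/-- Norms of `ofFun f`: it is enough to compute the products over the cosets of the subgroups of
prime order. -/
lemma normRat_ofFun (τ₀ : E →+* ℂ) (f : (E ≃ₐ[ℚ] E) → ℂ)
    (h : ∀ l : ℕ, l.Prime → ∀ C : Subgroup (E ≃ₐ[ℚ] E), Nat.card C = l →
      ∃ q : ℚ, ∀ x, ∏ᶠ c : C, f (x * c) = q) (K : IntermediateField ℚ E) (hK : K ≠ ⊤) :
    NormRat K (ofFun τ₀ f) := by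
  classical
  rw [← IsGalois.fixedField_fixingSubgroup K]
  have hH : K.fixingSubgroup ≠ ⊥ := by
    intro h1
    apply hK
    rw [← IsGalois.fixedField_fixingSubgroup K, h1, IntermediateField.fixedField_bot]
  set H := K.fixingSubgroup
  have hcard : Nat.card H ≠ 1 := fun h1 => hH (Subgroup.card_eq_one.1 h1)
  obtain ⟨l, hl, hlH⟩ := Nat.exists_prime_and_dvd hcard
  have : Fact l.Prime := ⟨hl⟩
  obtain ⟨x, hx⟩ := exists_prime_orderOf_dvd_card' (G := H) l hlH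
  have hC : Nat.card (Subgroup.zpowers (x : E ≃ₐ[ℚ] E)) = l := by
    rw [Nat.card_zpowers, Subgroup.orderOf_coe, hx]
  obtain ⟨q, hq⟩ := h l hl _ hC
  refine normRat_of_le (C := Subgroup.zpowers (x : E ≃ₐ[ℚ] E)) (H := H)
    (by rw [Subgroup.zpowers_le]; exact x.2) (e := (q : E)) fun τ => ?_
  obtain ⟨g, rfl⟩ := (embEquiv τ₀).surjective τ
  rw [map_ratCast, ← hq g, nm, ← Finset.prod_filter, finprod_eq_prod_of_fintype]
  change ∏ a ∈ _, ofFun τ₀ f (cmp (cmp τ₀ g) a) = _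
  simp_rw [← cmp_mul, ofFun_cmp]
  refine Finset.prod_subtype _ (fun c => ?_) (fun c : E ≃ₐ[ℚ] E => f (g * c))
  rw [Finset.mem_filter]
  exact ⟨fun h => h.2, fun h => ⟨Finset.mem_univ _, h⟩⟩

lemma not_isRat_ofFun (τ₀ : E →+* ℂ) (f : (E ≃ₐ[ℚ] E) → ℂ) {q : ℚ} (h1 : f 1 = q)
    {g : E ≃ₐ[ℚ] E} (hg : f g ≠ q) : ¬ IsRat (ofFun τ₀ f) := by
  rintro ⟨e, he⟩
  have h2 := he (cmp τ₀ 1)
  rw [ofFun_cmp, h1] at h2
  have h3 : e = (q : E) := by
    apply τ₀.injective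
    rw [map_ratCast]
    exact h2.symm
  have h4 := he (cmp τ₀ g)
  rw [ofFun_cmp, h3, map_ratCast] at h4
  exact hg h4

end Pool.Agent.H504.CF
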